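import Mathlib

/-!
Minimum shadow function `D k m` and its basic properties (numerical Kruskal-Katona).
-/

namespace Pool.Agent.Helper60.FA

open Finset Finset.Colex
open scoped FinsetFamily

/-- Minimum size of the shadow of a family of at least `m` sets of size `k`. -/
noncomputable def D (k m : ℕ) : ℕ :=
  sInf {c | ∃ (N : ℕ) (A : Finset (Finset (Fin N))),
    (A : Set (Finset (Fin N))).Sized k ∧ m ≤ A.card ∧ (∂ A).card = c}

lemma D_le {N k m : ℕ} {A : Finset (Finset (Fin N))}
    (hA : (A : Set (Finset (Fin N))).Sized k) (hm : m ≤ A.card) : D k m ≤ (∂ A).card :=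
  Nat.sInf_le ⟨N, A, hA, hm, rfl⟩

lemma D_nonempty {k : ℕ} (hk : 1 ≤ k) (m : ℕ) :
    {c | ∃ (N : ℕ) (A : Finset (Finset (Fin N))),
    (A : Set (Finset (Fin N))).Sized k ∧ m ≤ A.card ∧ (∂ A).card = c}.Nonempty := by
  refine ⟨_, m + k, powersetCard k univ, Set.sized_powersetCard _ _, ?_, rfl⟩
  rw [card_powersetCard, card_univ, Fintype.card_fin]
  have : m + 1 ≤ (m + k).choose k := by
    obtain ⟨j, rfl⟩ : ∃ j, k = j + 1 := ⟨k - 1, by omega⟩
    have h1 : (m + (j + 1)).choose (j + 1) = (m + (j+1)).choose m := by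
      rw [Nat.choose_symm_add]
    rw [h1]
    calc m + 1 = (m + 1).choose m := by simp
      _ ≤ (m + (j + 1)).choose m := Nat.choose_le_choose _ (by omega)
  omega

lemma D_attained {k : ℕ} (hk : 1 ≤ k) (m : ℕ) :
    ∃ (N : ℕ) (A : Finset (Finset (Fin N))),
      (A : Set (Finset (Fin N))).Sized k ∧ A.card = m ∧ (∂ A).card = D k m := by
  obtain ⟨N, A, hA, hm, hD⟩ := Nat.sInf_mem (D_nonempty hk m)
  obtain ⟨B, hBA, hB⟩ := exists_subset_card_eq hm
  have hBs : (B : Set (Finset (Fin N))).Sized k := hA.mono (by exact_mod_cast hBA)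
  refine ⟨N, B, hBs, hB, le_antisymm ?_ (D_le hBs hB.ge)⟩
  calc (∂ B).card ≤ (∂ A).card := card_le_card (shadow_mono hBA)
    _ = D k m := hD

lemma D_mono {k m m' : ℕ} (hk : 1 ≤ k) (h : m ≤ m') : D k m ≤ D k m' := by
  obtain ⟨N, A, hA, hm, hD⟩ := D_attained hk m'
  rw [← hD]
  exact D_le hA (by omega)

lemma D_zero (k : ℕ) : D k 0 = 0 := by
  have : D k 0 ≤ (∂ (∅ : Finset (Finset (Fin 0)))).card := D_le (by simp [Set.Sized]) (by simp)
  simpa using this

/-! ### transport along embeddings -/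

section Transport
variable {α β : Type*}

/-- image of a family under an embedding of ground sets -/
def mapF (f : α ↪ β) (A : Finset (Finset α)) : Finset (Finset β) :=
  A.map (Finset.mapEmbedding f).toEmbedding

lemma mem_mapF {f : α ↪ β} {A : Finset (Finset α)} {t : Finset β} :
    t ∈ mapF f A ↔ ∃ s ∈ A, s.map f = t := by
  simp [mapF, Finset.mem_map, Finset.mapEmbedding_apply]

lemma card_mapF (f : α ↪ β) (A : Finset (Finset α)) : (mapF f A).card = A.card := by
  simp [mapF]

lemma sized_mapF {f : α ↪ β} {A : Finset (Finset α)} {k : ℕ}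
    (hA : (A : Set (Finset α)).Sized k) : (mapF f A : Set (Finset β)).Sized k := by
  intro t ht
  rw [mem_coe, mem_mapF] at ht
  obtain ⟨s, hs, rfl⟩ := ht
  rw [card_map]
  exact hA hs

lemma shadow_mapF [DecidableEq α] [DecidableEq β] (f : α ↪ β) (A : Finset (Finset α)) : ∂ (mapF f A) = mapF f (∂ A) := by
  ext t
  rw [mem_shadow_iff, mem_mapF]
  constructor
  · rintro ⟨s, hs, a, ha, rfl⟩
    rw [mem_mapF] at hs
    obtain ⟨s, hs, rfl⟩ := hs
    rw [mem_map] at ha
    obtain ⟨a, ha, rfl⟩ := ha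
    exact ⟨s.erase a, erase_mem_shadow hs ha, by rw [map_erase]⟩
  · rintro ⟨s, hs, rfl⟩
    rw [mem_shadow_iff] at hs
    obtain ⟨s, hs, a, ha, rfl⟩ := hs
    exact ⟨s.map f, mem_mapF.2 ⟨s, hs, rfl⟩, f a, mem_map_of_mem f ha, by rw [map_erase]⟩

end Transport

lemma D_subadd {k : ℕ} (hk : 1 ≤ k) (m m' : ℕ) : D k (m + m') ≤ D k m + D k m' := by
  obtain ⟨N, A, hA, hm, hD⟩ := D_attained hk m
  obtain ⟨N', A', hA', hm', hD'⟩ := D_attained hk m'
  set f : Fin N ↪ Fin (N + N') := Fin.castAddEmb N' with hf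
  set g : Fin N' ↪ Fin (N + N') := Fin.natAddEmb N with hg
  have hdisj : Disjoint (mapF f A) (mapF g A') := by
    rw [disjoint_left]
    intro t ht ht'
    rw [mem_mapF] at ht ht'
    obtain ⟨s, hs, rfl⟩ := ht
    obtain ⟨s', hs', h⟩ := ht'
    have hne : s'.Nonempty := by
      rw [← card_pos, hA' hs']; omega
    obtain ⟨a, ha⟩ := hne
    have : g a ∈ s.map f := by rw [← h]; exact mem_map_of_mem g ha
    rw [mem_map] at this
    obtain ⟨b, -, hb⟩ := this
    have h1 := congrArg Fin.val hb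
    simp [hf, hg] at h1
    have := b.isLt
    omega
  have hs : ((mapF f A ∪ mapF g A' : Finset (Finset (Fin (N + N')))) :
      Set (Finset (Fin (N + N')))).Sized k := by
    intro t ht
    rw [mem_coe, mem_union] at ht
    rcases ht with ht | ht
    · exact sized_mapF hA ht
    · exact sized_mapF hA' ht
  have hcard : (mapF f A ∪ mapF g A').card = m + m' := by
    rw [card_union_of_disjoint hdisj, card_mapF, card_mapF, hm, hm']
  calc D k (m + m') ≤ (∂ (mapF f A ∪ mapF g A')).card := D_le hs hcard.ge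
    _ = (∂ (mapF f A) ∪ ∂ (mapF g A')).card := by
        congr 1
        ext t
        simp only [mem_shadow_iff, mem_union]
        constructor
        · rintro ⟨s, hs | hs, h⟩
          · exact Or.inl ⟨s, hs, h⟩
          · exact Or.inr ⟨s, hs, h⟩
        · rintro (⟨s, hs, h⟩ | ⟨s, hs, h⟩)
          · exact ⟨s, Or.inl hs, h⟩
          · exact ⟨s, Or.inr hs, h⟩
    _ ≤ (∂ (mapF f A)).card + (∂ (mapF g A')).card := card_union_le _ _
    _ = D k m + D k m' := by
        rw [shadow_mapF, shadow_mapF, card_mapF, card_mapF, hD, hD']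

/-! ### initial segments -/

lemma isInitSeg_mapF {n L k : ℕ} (h : n ≤ L) {C : Finset (Finset (Fin n))}
    (hC : IsInitSeg C k) : IsInitSeg (mapF (Fin.castLEEmb h) C) k := by
  refine ⟨sized_mapF hC.1, ?_⟩
  intro s t hs ⟨hts, htk⟩
  rw [mem_mapF] at hs ⊢
  obtain ⟨s, hs, rfl⟩ := hs
  have hlt : ∀ b ∈ t, (b : ℕ) < n := by
    by_cases hn : n = L
    · subst hn; intro b _; exact b.isLt
    · have hnL : n < L := by omega
      have := forall_lt_mono (a := (⟨n, hnL⟩ : Fin L)) hts.le (by
        intro b hb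
        rw [mem_map] at hb
        obtain ⟨c, -, rfl⟩ := hb
        simp [Fin.lt_def])
      intro b hb
      exact this b hb
  set t' : Finset (Fin n) := univ.filter (fun a => Fin.castLEEmb h a ∈ t) with ht'
  have htt' : t'.map (Fin.castLEEmb h) = t := by
    ext b
    rw [mem_map]
    constructor
    · rintro ⟨a, ha, rfl⟩
      rw [ht', mem_filter] at ha
      exact ha.2
    · intro hb
      refine ⟨⟨b, hlt b hb⟩, ?_, ?_⟩
      · rw [ht', mem_filter]
        refine ⟨mem_univ _, ?_⟩
        simpa using hb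
      · ext; simp
  refine ⟨t', ?_, htt'⟩
  refine hC.2 hs ⟨?_, ?_⟩
  · rw [← htt', map_eq_image, map_eq_image] at hts
    exact (toColex_image_lt_toColex_image (Fin.strictMono_castLE h)).1 hts
  · rw [← htk, ← htt', card_map]

/-- Kruskal-Katona: an initial segment has the minimal shadow. -/
lemma card_shadow_initSeg {n k m : ℕ} (hk : 1 ≤ k) {C : Finset (Finset (Fin n))}
    (hC : IsInitSeg C k) (hm : C.card = m) : (∂ C).card = D k m := by
  refine le_antisymm ?_ (D_le hC.1 hm.ge)
  obtain ⟨N, A, hA, hAm, hD⟩ := D_attained hk m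
  rw [← hD]
  set L := max n N
  have h1 : n ≤ L := le_max_left _ _
  have h2 : N ≤ L := le_max_right _ _
  have := kruskal_katona (𝒜 := mapF (Fin.castLEEmb h2) A) (𝒞 := mapF (Fin.castLEEmb h1) C)
    (sized_mapF hA) (by rw [card_mapF, card_mapF, hm, hAm]) (isInitSeg_mapF h1 hC)
  rwa [shadow_mapF, shadow_mapF, card_mapF, card_mapF] at this

/-- an initial segment which is not everything can be extended by one set. -/
lemma exists_initSeg_succ {n k : ℕ} {C : Finset (Finset (Fin n))}
    (hC : IsInitSeg C k) (hlt : C.card < n.choose k) :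
    ∃ s, s ∉ C ∧ s.card = k ∧ IsInitSeg (insert s C) k := by
  classical
  set R := (powersetCard k (univ : Finset (Fin n))) \ C with hR
  have hCsub : C ⊆ powersetCard k (univ : Finset (Fin n)) := by
    intro s hs
    rw [mem_powersetCard]
    exact ⟨subset_univ _, hC.1 hs⟩
  have hRne : R.Nonempty := by
    rw [← card_pos, hR, card_sdiff_of_subset hCsub, card_powersetCard, card_univ, Fintype.card_fin]
    omega
  obtain ⟨s, hs, hmin⟩ := exists_min_image R (fun s => toColex s) hRne
  rw [hR, mem_sdiff, mem_powersetCard] at hs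
  refine ⟨s, hs.2, hs.1.2, ?_, ?_⟩
  · intro t ht
    rw [mem_coe, mem_insert] at ht
    rcases ht with rfl | ht
    · exact hs.1.2
    · exact hC.1 ht
  · intro u t hu ⟨htu, htk⟩
    rw [mem_insert] at hu ⊢
    rcases hu with rfl | hu
    · by_contra hcon
      push Not at hcon
      have htR : t ∈ R := by
        rw [hR, mem_sdiff, mem_powersetCard]
        exact ⟨⟨subset_univ _, htk⟩, hcon.2⟩
      exact absurd (hmin t htR) (not_le.2 htu)
    · exact Or.inr (hC.2 hu ⟨htu, htk⟩)

lemma exists_initSeg {n k : ℕ} (m : ℕ) (hm : m ≤ n.choose k) :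
    ∃ C : Finset (Finset (Fin n)), IsInitSeg C k ∧ C.card = m := by
  induction m with
  | zero => exact ⟨∅, isInitSeg_empty, rfl⟩
  | succ m ih =>
    obtain ⟨C, hC, hCm⟩ := ih (by omega)
    obtain ⟨s, hs, -, hins⟩ := exists_initSeg_succ hC (by omega)
    exact ⟨insert s C, hins, by rw [card_insert_of_notMem hs, hCm]⟩

end Pool.Agent.Helper60.FA
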