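import Pool.Agent.Helper60.FA.Chain

/-!
The second case.
-/

namespace Pool.Agent.Helper60.FA

open Finset
open scoped FinsetFamily

/-- polynomial inequality -/
lemma poly_ineq {d e : ℕ} (hd : 3 ≤ d) (h : 14 ≤ 2 * d + e) :
    3 * ((d : ℚ) + e) * ((d : ℚ) + e - 1) ≤ 2 * d * (((e : ℚ) - 1) ^ 2 + (2 * d + e - 1)) := by
  have hdq : (3 : ℚ) ≤ d := by exact_mod_cast hd
  have key : 0 ≤ (d : ℚ) ^ 2 + d * (2 * e ^ 2 - 8 * e + 3) - 3 * e ^ 2 + 3 * e := by
    rcases Nat.lt_or_ge e 6 with h6 | h6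
    · interval_cases e
      · norm_num; positivity
      · norm_num; nlinarith
      · have : (6 : ℚ) ≤ d := by exact_mod_cast (by omega : 6 ≤ d)
        norm_num; nlinarith
      · have : (6 : ℚ) ≤ d := by exact_mod_cast (by omega : 6 ≤ d)
        norm_num; nlinarith
      · have : (5 : ℚ) ≤ d := by exact_mod_cast (by omega : 5 ≤ d)
        norm_num; nlinarith
      · have : (5 : ℚ) ≤ d := by exact_mod_cast (by omega : 5 ≤ d)
        norm_num; nlinarith
    · have h6q : (6 : ℚ) ≤ e := by exact_mod_cast h6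
      have h1 : 0 ≤ ((d : ℚ) - 3) * (2 * e ^ 2 - 8 * e + 3) := by
        apply mul_nonneg (by linarith)
        nlinarith
      have h2 : 0 ≤ ((e : ℚ) - 1) * (e - 6) := by
        apply mul_nonneg <;> linarith
      nlinarith
  nlinarith

/-- numerical condition for a rate `r` -/
def chk (n k : ℕ) (r : ℚ) : Prop :=
  r * ((k : ℚ) * (k - 1)) ≤ ((n : ℚ) - 2 * k + 2) ^ 2 + n ∧
    r * (((n : ℚ) - k) * (n - k + 1)) ≤ ((n : ℚ) - 2 * k) ^ 2 + n ∧ r ≤ 1

instance (n k : ℕ) (r : ℚ) : Decidable (chk n k r) := by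
  unfold chk; infer_instance

lemma num_base : ∀ n : ℕ, n < 13 → ∀ k : ℕ, k < n → 3 ≤ k → k + 2 ≤ n →
    (chk n k (R n k) ∨ chk n k (R n (n - k + 1))) := by
  decide +kernel

lemma num_large {n k : ℕ} (hn : 13 ≤ n) (hk : 3 ≤ k) (hkn : k + 2 ≤ n) :
    R n k * ((k : ℚ) * (k - 1)) ≤ ((n : ℚ) - 2 * k + 2) ^ 2 + n ∧
      R n k * (((n : ℚ) - k) * (n - k + 1)) ≤ ((n : ℚ) - 2 * k) ^ 2 + n ∧ R n k ≤ 1 := by
  obtain ⟨b1, b2⟩ := R_bd n (by omega) k hk (by omega)
  set r := R n k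
  have hkq : (3 : ℚ) ≤ k := by exact_mod_cast hk
  have hnq : (13 : ℚ) ≤ n := by exact_mod_cast hn
  have hknq : (k : ℚ) + 2 ≤ n := by exact_mod_cast hkn
  rcases Nat.lt_or_ge (n + 1) (2 * k) with h | h
  · -- d + e = k, d = n + 1 - k
    have h3 := b2 (by omega)
    obtain ⟨d, hd⟩ : ∃ d, n + 1 = k + d := ⟨n + 1 - k, by omega⟩
    obtain ⟨e, he⟩ : ∃ e, k = d + e := ⟨k - d, by omega⟩
    have hd3 : 3 ≤ d := by omega
    have hdq : (3 : ℚ) ≤ d := by exact_mod_cast hd3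
    have hnd : (n : ℚ) = k + d - 1 := by
      have : ((n + 1 : ℕ) : ℚ) = ((k + d : ℕ) : ℚ) := by rw [hd]
      push_cast at this; linarith
    have hke : (k : ℚ) = d + e := by
      have : ((k : ℕ) : ℚ) = ((d + e : ℕ) : ℚ) := by rw [he]
      push_cast at this; linarith
    have he1 : (1 : ℚ) ≤ e := by exact_mod_cast (by omega : 1 ≤ e)
    have hp := poly_ineq hd3 (e := e) (by omega)
    have h4 : 2 * (d : ℚ) * r ≤ 3 := by
      have : (n : ℚ) + 1 - k = d := by rw [hnd]; ring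
      rwa [this] at h3
    refine ⟨?_, ?_, ?_⟩
    · have e1 : (n : ℚ) - 2 * k + 2 = -((e : ℚ) - 1) := by rw [hnd, hke]; ring
      have e2 : (n : ℚ) = 2 * d + e - 1 := by rw [hnd, hke]; ring
      rw [e1, e2, hke, neg_sq]
      have h5 : ((d : ℚ) + e) * (d + e - 1) * (2 * (d : ℚ) * r) ≤ ((d : ℚ) + e) * (d + e - 1) * 3 :=
        mul_le_mul_of_nonneg_left h4 (by apply mul_nonneg <;> linarith)
      have h6 : 2 * (d : ℚ) * (r * (((d : ℚ) + e) * (d + e - 1))) ≤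
          2 * (d : ℚ) * (((e : ℚ) - 1) ^ 2 + (2 * d + e - 1)) := by linarith
      exact le_of_mul_le_mul_left h6 (by linarith)
    · have e1 : ((n : ℚ) - k) * (n - k + 1) = d * (d - 1) := by rw [hnd]; ring
      rw [e1]
      have h5 : ((d : ℚ) - 1) * (2 * (d : ℚ) * r) ≤ ((d : ℚ) - 1) * 3 :=
        mul_le_mul_of_nonneg_left h4 (by linarith)
      have h6 : 0 ≤ ((n : ℚ) - 2 * k) ^ 2 := sq_nonneg _
      have h7 : 3 * ((d : ℚ) - 1) ≤ 2 * n := by rw [hnd]; linarith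
      linarith
    · nlinarith
  · have h3 := b1 h
    obtain ⟨d, hd⟩ : ∃ d, n + 1 = k + d := ⟨n + 1 - k, by omega⟩
    obtain ⟨e, he⟩ : ∃ e, d = k + e := ⟨d - k, by omega⟩
    have hnd : (n : ℚ) = k + d - 1 := by
      have : ((n + 1 : ℕ) : ℚ) = ((k + d : ℕ) : ℚ) := by rw [hd]
      push_cast at this; linarith
    have hke : (d : ℚ) = k + e := by
      have : ((d : ℕ) : ℚ) = ((k + e : ℕ) : ℚ) := by rw [he]
      push_cast at this; linarith
    have he0 : (0 : ℚ) ≤ e := by positivity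
    have hp := poly_ineq hk (e := e) (by omega)
    refine ⟨?_, ?_, ?_⟩
    · have h5 : ((k : ℚ) - 1) * (2 * (k : ℚ) * r) ≤ ((k : ℚ) - 1) * 3 :=
        mul_le_mul_of_nonneg_left h3 (by linarith)
      have h6 : 0 ≤ ((n : ℚ) - 2 * k + 2) ^ 2 := sq_nonneg _
      have h7 : 3 * ((k : ℚ) - 1) ≤ 2 * n := by rw [hnd]; linarith
      linarith
    · have e1 : ((n : ℚ) - k) * (n - k + 1) = (k + e) * (k + e - 1) := by rw [hnd, hke]; ring
      have e2 : (n : ℚ) - 2 * k = e - 1 := by rw [hnd, hke]; ring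
      have e3 : (n : ℚ) = 2 * k + e - 1 := by rw [hnd, hke]; ring
      rw [e1, e2, e3]
      have h5 : ((k : ℚ) + e) * (k + e - 1) * (2 * (k : ℚ) * r) ≤ ((k : ℚ) + e) * (k + e - 1) * 3 :=
        mul_le_mul_of_nonneg_left h3 (by apply mul_nonneg <;> linarith)
      have h6 : 2 * (k : ℚ) * (r * (((k : ℚ) + e) * (k + e - 1))) ≤
          2 * (k : ℚ) * (((e : ℚ) - 1) ^ 2 + (2 * k + e - 1)) := by linarith
      exact le_of_mul_le_mul_left h6 (by linarith)
    · nlinarith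

variable {n : ℕ}

/-- inverse binomials -/
def fi (n i : ℕ) : ℚ := ((n.choose i : ℕ) : ℚ)⁻¹

lemma fi_pos {n i : ℕ} (h : i ≤ n) : 0 < fi n i := by
  have : (0 : ℚ) < n.choose i := by exact_mod_cast Nat.choose_pos h
  exact inv_pos.2 this

/-- second difference, normalised by the middle term. -/
lemma fi_conv {n i : ℕ} (h : i + 2 ≤ n) :
    (fi n i - 2 * fi n (i + 1) + fi n (i + 2)) * (((n : ℚ) - i - 1) * (i + 1)) =
      fi n (i + 1) * (((n : ℚ) - 2 * i - 2) ^ 2 + n) := by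
  have hP : (0 : ℚ) < n.choose i := by exact_mod_cast Nat.choose_pos (by omega : i ≤ n)
  have hQ : (0 : ℚ) < n.choose (i + 1) := by exact_mod_cast Nat.choose_pos (by omega : i + 1 ≤ n)
  have hS : (0 : ℚ) < n.choose (i + 2) := by exact_mod_cast Nat.choose_pos h
  have e1 : (n.choose (i + 1) : ℚ) * (i + 1) = n.choose i * ((n : ℚ) - i) := by
    have := Nat.choose_succ_right_eq n i
    have h2 : ((n - i : ℕ) : ℚ) = (n : ℚ) - i := by rw [Nat.cast_sub (by omega)]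
    rw [← h2]
    exact_mod_cast this
  have e2 : (n.choose (i + 2) : ℚ) * (i + 2) = n.choose (i + 1) * ((n : ℚ) - i - 1) := by
    have := Nat.choose_succ_right_eq n (i + 1)
    have h2 : ((n - (i + 1) : ℕ) : ℚ) = (n : ℚ) - i - 1 := by
      rw [Nat.cast_sub (by omega)]; push_cast; ring
    rw [← h2]
    exact_mod_cast this
  have hu : (0 : ℚ) < (n : ℚ) - i - 1 := by
    have : ((i + 2 : ℕ) : ℚ) ≤ n := by exact_mod_cast h
    push_cast at this; linarith
  have hv : (0 : ℚ) < (i : ℚ) + 1 := by positivity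
  simp only [fi]
  set P : ℚ := ((n.choose i : ℕ) : ℚ)
  set Q : ℚ := ((n.choose (i + 1) : ℕ) : ℚ)
  set S : ℚ := ((n.choose (i + 2) : ℕ) : ℚ)
  -- P⁻¹ = (n-i)/((i+1) Q), S⁻¹ = (i+2)/((n-i-1) Q)
  have f1 : P⁻¹ * (i + 1) = Q⁻¹ * ((n : ℚ) - i) := by
    field_simp; linarith
  have f2 : S⁻¹ * ((n : ℚ) - i - 1) = Q⁻¹ * (i + 2) := by
    field_simp; linarith
  linear_combination ((n : ℚ) - i - 1) * f1 + ((i : ℚ) + 1) * f2

/-- (TL) -/
lemma TL_aux {𝒜 : Finset (Finset (Fin n))}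
    (hA : IsAntichain (· ⊆ ·) (𝒜 : Set (Finset (Fin n)))) (j : ℕ) :
    ∀ i, n + 1 ≤ i + j →
      (X 𝒜 i : ℚ) * fi n i + X 𝒜 (i + 1) * (fi n (i + 1) - 2 * fi n i) ≤ NN 𝒜 i * fi n i := by
  induction j with
  | zero =>
    intro i h
    rw [X_zero_of_gt 𝒜 (by omega : n + 1 ≤ i), X_zero_of_gt 𝒜 (by omega : n + 1 ≤ i + 1)]
    have : 0 ≤ fi n i := by unfold fi; positivity
    simp only [Nat.cast_zero, zero_mul, add_zero]
    positivity
  | succ j ih =>
    intro i h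
    have h1 := ih (i + 1) (by omega)
    have h2 := NN_step hA i
    have h4 := X_second 𝒜 i
    have hlym := local_lubell_yamamoto_meshalkin_inequality_div (𝕜 := ℚ) (r := i + 1) (by omega)
      (sized_falling (i + 1) 𝒜)
    rw [Fintype.card_fin, Nat.add_sub_cancel] at hlym
    have h2q : (NN 𝒜 i : ℚ) = (𝒜 # i).card + (∂ (falling (i + 1) 𝒜)).card := by
      exact_mod_cast h2
    have h4q : (X 𝒜 i : ℚ) + X 𝒜 (i + 2) = (𝒜 # i).card + 2 * X 𝒜 (i + 1) := by
      exact_mod_cast h4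
    have hlym' : (NN 𝒜 (i + 1) : ℚ) * fi n (i + 1) ≤ (∂ (falling (i + 1) 𝒜)).card * fi n i := by
      simp only [fi, ← div_eq_mul_inv]
      exact hlym
    have hconv : 0 ≤ (X 𝒜 (i + 2) : ℚ) * (fi n i - 2 * fi n (i + 1) + fi n (i + 2)) := by
      rcases Nat.lt_or_ge n (i + 2) with h5 | h5
      · rw [X_zero_of_gt 𝒜 (by omega : n + 1 ≤ i + 2)]; simp
      · have h6 := fi_conv h5
        have hu : (0 : ℚ) < (n : ℚ) - i - 1 := by
          have : ((i + 2 : ℕ) : ℚ) ≤ n := by exact_mod_cast h5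
          push_cast at this; linarith
        have hv : (0 : ℚ) < (i : ℚ) + 1 := by positivity
        have h7 : 0 ≤ fi n (i + 1) * (((n : ℚ) - 2 * i - 2) ^ 2 + n) :=
          mul_nonneg (fi_pos (by omega)).le (by positivity)
        rw [← h6] at h7
        have h8 : 0 ≤ fi n i - 2 * fi n (i + 1) + fi n (i + 2) :=
          nonneg_of_mul_nonneg_left h7 (mul_pos hu hv)
        positivity
    have e1 : (i + 1 + 1) = i + 2 := rfl
    rw [e1] at h1
    have ha : ((𝒜 # i).card : ℚ) = X 𝒜 i + X 𝒜 (i + 2) - 2 * X 𝒜 (i + 1) := by linarith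
    rw [h2q, ha]
    nlinarith

lemma TL {𝒜 : Finset (Finset (Fin n))}
    (hA : IsAntichain (· ⊆ ·) (𝒜 : Set (Finset (Fin n)))) (i : ℕ) :
    (X 𝒜 i : ℚ) * fi n i + X 𝒜 (i + 1) * (fi n (i + 1) - 2 * fi n i) ≤ NN 𝒜 i * fi n i :=
  TL_aux hA (n + 1) i (by omega)

lemma fi_symm {i j : ℕ} (h : i + j = n) : fi n i = fi n j := by
  unfold fi
  rw [← Nat.choose_symm (by omega : j ≤ n)]
  congr 3
  omega

/-- conclusion of case 2 for a given rate `r` -/
lemma case2_aux {𝒜 : Finset (Finset (Fin n))}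
    (hA : IsAntichain (· ⊆ ·) (𝒜 : Set (Finset (Fin n)))) {k a b : ℕ} (hk : 2 ≤ k) (hkn : k + 1 ≤ n)
    (h1 : X 𝒜 k = a + X 𝒜ᶜˢ (n - k + 2)) (h2 : X 𝒜ᶜˢ (n - k + 1) = b + X 𝒜 (k + 1))
    (hc1 : NN 𝒜ᶜˢ (n - k + 1) < X 𝒜 (k + 1)) (hc2 : NN 𝒜 k < X 𝒜ᶜˢ (n - k + 2)) {r : ℚ}
    (hr1 : r * ((k : ℚ) * (k - 1)) ≤ ((n : ℚ) - 2 * k + 2) ^ 2 + n)
    (hr2 : r * (((n : ℚ) - k) * (n - k + 1)) ≤ ((n : ℚ) - 2 * k) ^ 2 + n) (hr3 : r ≤ 1) :
    (a : ℚ) * fi n k + b * fi n (k - 1) + r < 1 := by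
  have hA' := antichain_compls hA
  have t1 := TL hA k
  have t2 := TL hA' (n - k + 1)
  have e1 : n - k + 1 + 1 = n - k + 2 := rfl
  rw [e1, fi_symm (by omega : (n - k + 1) + (k - 1) = n),
    fi_symm (by omega : (n - k + 2) + (k - 2) = n), h2] at t2
  rw [h1] at t1
  push_cast at t1 t2
  have hkq : (2 : ℚ) ≤ k := by exact_mod_cast hk
  have hknq : (k : ℚ) + 1 ≤ n := by exact_mod_cast hkn
  -- local LYM and disjointness
  have hlym := local_lubell_yamamoto_meshalkin_inequality_div (𝕜 := ℚ) (r := k) (by omega)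
      (sized_falling k 𝒜)
  rw [Fintype.card_fin] at hlym
  have hlym' : (NN 𝒜 k : ℚ) * fi n k ≤ (∂ (falling k 𝒜)).card * fi n (k - 1) := by
    simp only [fi, ← div_eq_mul_inv]
    exact hlym
  have hdj := disj_count hA (by omega : 1 ≤ k) (by omega : k ≤ n)
  have hfk := fi_pos (by omega : k ≤ n)
  have hfk1 := fi_pos (by omega : k - 1 ≤ n)
  have hsum : (NN 𝒜 k : ℚ) * fi n k + NN 𝒜ᶜˢ (n - k + 1) * fi n (k - 1) ≤ 1 := by
    have h3 : ((∂ (falling k 𝒜)).card : ℚ) + NN 𝒜ᶜˢ (n - k + 1) ≤ n.choose (k - 1) := by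
      exact_mod_cast hdj
    have h4 : ((n.choose (k - 1) : ℕ) : ℚ) * fi n (k - 1) = 1 := by
      unfold fi
      apply mul_inv_cancel₀
      have := Nat.choose_pos (by omega : k - 1 ≤ n)
      positivity
    nlinarith
  -- second differences
  obtain ⟨i, rfl⟩ : ∃ i, k = i + 2 := ⟨k - 2, by omega⟩
  have c1 := fi_conv (n := n) (i := i + 1) (by omega)
  have c2 := fi_conv (n := n) (i := i) (by omega)
  have e3 : i + 2 - 1 = i + 1 := rfl
  have e4 : i + 2 - 2 = i := rfl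
  have e5 : i + 2 + 1 = i + 3 := rfl
  have e6 : i + 1 + 1 = i + 2 := rfl
  have e7 : i + 1 + 2 = i + 3 := rfl
  rw [e6, e7] at c1
  rw [e3, e4] at t2
  rw [e3] at hsum hfk1 ⊢
  rw [e5] at t1
  push_cast at c1 c2 hr1 hr2 hkq hknq
  -- ratios
  have r1 : fi n (i + 2) * ((n : ℚ) - i - 1) = fi n (i + 1) * (i + 2) := by
    have := Nat.choose_succ_right_eq n (i + 1)
    have h2 : ((n - (i + 1) : ℕ) : ℚ) = (n : ℚ) - i - 1 := by
      rw [Nat.cast_sub (by omega)]; push_cast; ring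
    have h3 : ((n.choose (i + 2) : ℕ) : ℚ) * (i + 2) = n.choose (i + 1) * ((n : ℚ) - i - 1) := by
      rw [← h2]
      exact_mod_cast this
    have hQ : (0 : ℚ) < n.choose (i + 1) := by exact_mod_cast Nat.choose_pos (by omega : i + 1 ≤ n)
    have hS : (0 : ℚ) < n.choose (i + 2) := by exact_mod_cast Nat.choose_pos (by omega : i + 2 ≤ n)
    unfold fi
    field_simp
    linarith
  -- δ_k ≥ r fi (k-1)
  have hu : (0 : ℚ) < (n : ℚ) - i - 2 := by linarith
  have hu1 : (0 : ℚ) < (n : ℚ) - i - 1 := by linarith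
  have hi0 : (0 : ℚ) ≤ i := by positivity
  have d1 : r * fi n (i + 1) ≤ fi n (i + 1) - 2 * fi n (i + 2) + fi n (i + 3) := by
    have h3 : r * fi n (i + 1) * (((n : ℚ) - (i + 1) - 1) * (i + 1 + 1)) ≤
        (fi n (i + 1) - 2 * fi n (i + 2) + fi n (i + 3)) * (((n : ℚ) - (i + 1) - 1) * (i + 1 + 1)) := by
      rw [c1]
      have h4 : r * fi n (i + 1) * (((n : ℚ) - (i + 1) - 1) * (i + 1 + 1)) =
          fi n (i + 2) * (r * (((n : ℚ) - (i + 2)) * (n - (i + 2) + 1))) := by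
        linear_combination (-(r * ((n : ℚ) - i - 2))) * r1
      rw [h4]
      have h5 : (n : ℚ) - 2 * (i + 1) - 2 = n - 2 * (i + 2) := by ring
      rw [h5]
      exact mul_le_mul_of_nonneg_left hr2 hfk.le
    refine le_of_mul_le_mul_right h3 ?_
    apply mul_pos <;> linarith
  have d2 : r * fi n (i + 2) ≤ fi n i - 2 * fi n (i + 1) + fi n (i + 2) := by
    have h3 : r * fi n (i + 2) * (((n : ℚ) - i - 1) * (i + 1)) ≤
        (fi n i - 2 * fi n (i + 1) + fi n (i + 2)) * (((n : ℚ) - i - 1) * (i + 1)) := by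
      rw [c2]
      have h4 : r * fi n (i + 2) * (((n : ℚ) - i - 1) * (i + 1)) =
          fi n (i + 1) * (r * (((i : ℚ) + 2) * (i + 2 - 1))) := by
        linear_combination (r * ((i : ℚ) + 1)) * r1
      rw [h4]
      have h5 : (n : ℚ) - 2 * i - 2 = n - 2 * (i + 2) + 2 := by ring
      rw [h5]
      exact mul_le_mul_of_nonneg_left hr1 hfk1.le
    refine le_of_mul_le_mul_right h3 ?_
    apply mul_pos <;> linarith
  -- strict positivity
  have p1 : 0 < fi n (i + 1) - 2 * fi n (i + 2) + fi n (i + 3) := by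
    have h3 : 0 < (fi n (i + 1) - 2 * fi n (i + 2) + fi n (i + 3)) *
        (((n : ℚ) - (i + 1) - 1) * (i + 1 + 1)) := by
      rw [c1]
      apply mul_pos hfk
      have : (0 : ℚ) < n := by linarith
      positivity
    refine pos_of_mul_pos_left h3 ?_
    apply mul_nonneg <;> linarith
  have p2 : 0 < fi n i - 2 * fi n (i + 1) + fi n (i + 2) := by
    have h3 : 0 < (fi n i - 2 * fi n (i + 1) + fi n (i + 2)) * (((n : ℚ) - i - 1) * (i + 1)) := by
      rw [c2]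
      apply mul_pos hfk1
      have : (0 : ℚ) < n := by linarith
      positivity
    refine pos_of_mul_pos_left h3 ?_
    apply mul_nonneg <;> linarith
  set N : ℚ := (NN 𝒜 (i + 2) : ℚ) with hN
  set M : ℚ := (NN 𝒜ᶜˢ (n - (i + 2) + 1) : ℚ) with hM
  set X2 : ℚ := (X 𝒜 (i + 3) : ℚ) with hX2
  set Y2 : ℚ := (X 𝒜ᶜˢ (n - (i + 2) + 2) : ℚ) with hY2
  have hX2M : M + 1 ≤ X2 := by
    rw [hM, hX2]; exact_mod_cast hc1
  have hY2N : N + 1 ≤ Y2 := by
    rw [hN, hY2]; exact_mod_cast hc2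
  have hN0 : 0 ≤ N := by positivity
  have hM0 : 0 ≤ M := by positivity
  set δ1 := fi n (i + 1) - 2 * fi n (i + 2) + fi n (i + 3) with hδ1
  set δ2 := fi n i - 2 * fi n (i + 1) + fi n (i + 2) with hδ2
  have q1 : (a : ℚ) * fi n (i + 2) + b * fi n (i + 1) + X2 * δ1 + Y2 * δ2 ≤
      N * fi n (i + 2) + M * fi n (i + 1) := by
    have t3 := add_le_add t1 t2
    calc (a : ℚ) * fi n (i + 2) + b * fi n (i + 1) + X2 * δ1 + Y2 * δ2
        = ((a : ℚ) + Y2) * fi n (i + 2) + X2 * (fi n (i + 3) - 2 * fi n (i + 2)) +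
          (((b : ℚ) + X2) * fi n (i + 1) + Y2 * (fi n i - 2 * fi n (i + 1))) := by
          rw [hδ1, hδ2]; ring
      _ ≤ _ := t3
  have q2 : M * δ1 < X2 * δ1 := by
    apply mul_lt_mul_of_pos_right _ p1; linarith
  have q3 : N * δ2 < Y2 * δ2 := by
    apply mul_lt_mul_of_pos_right _ p2; linarith
  have q4 : M * (r * fi n (i + 1)) ≤ M * δ1 := mul_le_mul_of_nonneg_left d1 hM0
  have q5 : N * (r * fi n (i + 2)) ≤ N * δ2 := mul_le_mul_of_nonneg_left d2 hN0
  have q6 : (1 - r) * (N * fi n (i + 2) + M * fi n (i + 1)) ≤ (1 - r) * 1 :=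
    mul_le_mul_of_nonneg_left hsum (by linarith)
  have q7 : M * (r * fi n (i + 1)) + N * (r * fi n (i + 2)) =
      r * (N * fi n (i + 2) + M * fi n (i + 1)) := by ring
  have q8 : (1 - r) * (N * fi n (i + 2) + M * fi n (i + 1)) =
      (N * fi n (i + 2) + M * fi n (i + 1)) - r * (N * fi n (i + 2) + M * fi n (i + 1)) := by ring
  rw [q8] at q6
  clear_value X2 Y2 M N δ1 δ2
  linarith

/-- Case 2. -/
lemma case2 {𝒜 : Finset (Finset (Fin n))}
    (hA : IsAntichain (· ⊆ ·) (𝒜 : Set (Finset (Fin n)))) {k a b : ℕ} (hk : 1 ≤ k) (hkn : k ≤ n)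
    (h1 : X 𝒜 k = a + X 𝒜ᶜˢ (n - k + 2)) (h2 : X 𝒜ᶜˢ (n - k + 1) = b + X 𝒜 (k + 1))
    (hc1 : NN 𝒜ᶜˢ (n - k + 1) < X 𝒜 (k + 1)) (hc2 : NN 𝒜 k < X 𝒜ᶜˢ (n - k + 2)) :
    D k a + b + 1 ≤ n.choose (k - 1) ∨ D (n - k + 1) b + a + 1 ≤ n.choose k := by
  -- ranges
  obtain ⟨s, hs, hsc⟩ := exists_of_X_pos (by omega : 1 ≤ X 𝒜 (k + 1))
  obtain ⟨t, ht, htc⟩ := exists_of_X_pos (by omega : 1 ≤ X 𝒜ᶜˢ (n - k + 2))
  have hsn := card_finset_fin_le s
  have htn := card_finset_fin_le t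
  rw [mem_compls] at ht
  have htcc : tᶜ.card = n - t.card := by rw [card_compl, Fintype.card_fin]
  have hne : tᶜ ≠ s := by
    intro h
    have := congrArg card h
    omega
  have hk3 : 3 ≤ k := by
    by_contra hcon
    have h3 : tᶜ = ∅ := by
      rw [← card_eq_zero]; omega
    apply hA ht hs hne
    rw [h3]
    exact empty_subset _
  have hkn2 : k + 2 ≤ n := by
    by_contra hcon
    have h3 : s = univ := by
      rw [← card_eq_iff_eq_univ, Fintype.card_fin]; omega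
    apply hA ht hs hne
    rw [h3]
    exact subset_univ _
  have hnum : (R n k * ((k : ℚ) * (k - 1)) ≤ ((n : ℚ) - 2 * k + 2) ^ 2 + n ∧
      R n k * (((n : ℚ) - k) * (n - k + 1)) ≤ ((n : ℚ) - 2 * k) ^ 2 + n ∧ R n k ≤ 1) ∨
    (R n (n - k + 1) * ((k : ℚ) * (k - 1)) ≤ ((n : ℚ) - 2 * k + 2) ^ 2 + n ∧
      R n (n - k + 1) * (((n : ℚ) - k) * (n - k + 1)) ≤ ((n : ℚ) - 2 * k) ^ 2 + n ∧
      R n (n - k + 1) ≤ 1) := by
    rcases Nat.lt_or_ge n 13 with h13 | h13
    · exact num_base n h13 k (by omega) hk3 hkn2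
    · exact Or.inl (num_large h13 hk3 hkn2)
  have hkq : (3 : ℚ) ≤ k := by exact_mod_cast hk3
  have hknq : (k : ℚ) + 2 ≤ n := by exact_mod_cast hkn2
  have I1 : (n.choose k : ℚ) * k = (n.choose (k - 1) : ℚ) * ((n : ℚ) - k + 1) := by
    have := Nat.choose_succ_right_eq n (k - 1)
    rw [Nat.sub_add_cancel hk] at this
    have h3 : ((n - (k - 1) : ℕ) : ℚ) = (n : ℚ) - k + 1 := by
      rw [Nat.cast_sub (by omega), Nat.cast_sub hk]; push_cast; ring
    rw [← h3]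
    exact_mod_cast this
  have hQ : (0 : ℚ) < n.choose (k - 1) := by exact_mod_cast Nat.choose_pos (by omega : k - 1 ≤ n)
  have hS : (0 : ℚ) < n.choose k := by exact_mod_cast Nat.choose_pos hkn
  have hd : (0 : ℚ) < (n : ℚ) - k + 1 := by linarith
  rcases hnum with ⟨r1, r2, r3⟩ | ⟨r1, r2, r3⟩
  · left
    have h3 := case2_aux hA (by omega) (by omega) h1 h2 hc1 hc2 r1 r2 r3
    have h4 := D_lin n k hk hkn a
    have h5 : (k : ℚ) / ((n : ℚ) - k + 1) = (n.choose (k - 1) : ℚ) * fi n k := by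
      unfold fi
      rw [div_eq_iff hd.ne']
      field_simp
      linarith
    have h6 : (D k a : ℚ) + b < n.choose (k - 1) := by
      have h7 : (n.choose (k - 1) : ℚ) * ((a : ℚ) * fi n k + b * fi n (k - 1) + R n k) <
          (n.choose (k - 1) : ℚ) * 1 := mul_lt_mul_of_pos_left h3 hQ
      have h8 : (n.choose (k - 1) : ℚ) * fi n (k - 1) = 1 := by
        unfold fi; exact mul_inv_cancel₀ hQ.ne'
      rw [h5] at h4
      have h9 : (n.choose (k - 1) : ℚ) * ((a : ℚ) * fi n k + b * fi n (k - 1) + R n k) =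
          (n.choose (k - 1) : ℚ) * fi n k * a + b * ((n.choose (k - 1) : ℚ) * fi n (k - 1)) +
            R n k * n.choose (k - 1) := by ring
      rw [h9, h8] at h7
      linarith
    have h7 : D k a + b < n.choose (k - 1) := by exact_mod_cast h6
    omega
  · right
    have h3 := case2_aux hA (by omega) (by omega) h1 h2 hc1 hc2 r1 r2 r3
    have h4 := D_lin n (n - k + 1) (by omega) (by omega) b
    have hk' : ((n - k + 1 : ℕ) : ℚ) = (n : ℚ) - k + 1 := by
      push_cast; rw [Nat.cast_sub hkn]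
    rw [hk'] at h4
    have h4' : (n : ℚ) - ((n : ℚ) - k + 1) + 1 = k := by ring
    have hch : n.choose (n - k + 1 - 1) = n.choose k := by
      rw [Nat.add_sub_cancel, Nat.choose_symm hkn]
    rw [h4', hch] at h4
    have h5 : ((n : ℚ) - k + 1) / k = (n.choose k : ℚ) * fi n (k - 1) := by
      unfold fi
      rw [div_eq_iff (by linarith)]
      field_simp
      linarith
    have h6 : (D (n - k + 1) b : ℚ) + a < n.choose k := by
      have h7 : (n.choose k : ℚ) * ((a : ℚ) * fi n k + b * fi n (k - 1) + R n (n - k + 1)) <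
          (n.choose k : ℚ) * 1 := mul_lt_mul_of_pos_left h3 hS
      have h8 : (n.choose k : ℚ) * fi n k = 1 := by
        unfold fi; exact mul_inv_cancel₀ hS.ne'
      rw [h5] at h4
      have h9 : (n.choose k : ℚ) * ((a : ℚ) * fi n k + b * fi n (k - 1) + R n (n - k + 1)) =
          (n.choose k : ℚ) * fi n (k - 1) * b + a * ((n.choose k : ℚ) * fi n k) +
            R n (n - k + 1) * n.choose k := by ring
      rw [h9, h8] at h7
      linarith
    have h7 : D (n - k + 1) b + a < n.choose k := by exact_mod_cast h6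
    omega

/-- The strict inequality for non-flat antichains. -/
theorem main_ineq {𝒜 : Finset (Finset (Fin n))}
    (hA : IsAntichain (· ⊆ ·) (𝒜 : Set (Finset (Fin n)))) {k a b : ℕ} (hk : 1 ≤ k) (hkn : k ≤ n)
    (h1 : X 𝒜 k = a + X 𝒜ᶜˢ (n - k + 2)) (h2 : X 𝒜ᶜˢ (n - k + 1) = b + X 𝒜 (k + 1))
    (hnf : 1 ≤ X 𝒜 (k + 1) ∨ 1 ≤ X 𝒜ᶜˢ (n - k + 2)) :
    D k a + b + 1 ≤ n.choose (k - 1) ∨ D (n - k + 1) b + a + 1 ≤ n.choose k := by
  rcases Nat.lt_or_ge (NN 𝒜ᶜˢ (n - k + 1)) (X 𝒜 (k + 1)) with hc1 | hc1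
  · rcases Nat.lt_or_ge (NN 𝒜 k) (X 𝒜ᶜˢ (n - k + 2)) with hc2 | hc2
    · exact case2 hA hk hkn h1 h2 hc1 hc2
    · -- case 1 for the complement
      have hA' := antichain_compls hA
      have e1 : n - (n - k + 1) + 1 = k := by omega
      have e2 : n - (n - k + 1) + 2 = k + 1 := by omega
      have h3 := case1 hA' (k := n - k + 1) (a := b) (b := a) (by omega) (by omega)
        (by rw [compls_compls, e2]; exact h2)
        (by rw [compls_compls, e1]; exact h1)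
        (by rw [compls_compls, e2]; exact hnf.symm)
        (by rw [compls_compls, e1]; exact hc2)
      rw [Nat.add_sub_cancel, e1, Nat.choose_symm hkn] at h3
      have e3 : n.choose (n - k + 1) = n.choose (k - 1) := by
        rw [← Nat.choose_symm (by omega : k - 1 ≤ n)]
        congr 1
        omega
      rw [e3] at h3
      exact h3.symm
  · exact case1 hA hk hkn h1 h2 hnf hc1

end Pool.Agent.Helper60.FA
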