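import Pool.Agent.Helper60.FA.LemF

/-!
The chain inequality for antichains, duality and the first case.
-/

namespace Pool.Agent.Helper60.FA

open Finset
open scoped FinsetFamily

variable {n : ℕ}

/-- `X 𝒜 i = ∑ (|s| + 1 - i)⁺`. -/
def X (𝒜 : Finset (Finset (Fin n))) (i : ℕ) : ℕ := ∑ s ∈ 𝒜, (s.card + 1 - i)

/-- number of `i`-sets below the antichain -/
def NN (𝒜 : Finset (Finset (Fin n))) (i : ℕ) : ℕ := (falling i 𝒜).card

lemma card_slice_eq (𝒜 : Finset (Finset (Fin n))) (i : ℕ) :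
    (𝒜 # i).card = ∑ s ∈ 𝒜, (if s.card = i then 1 else 0) := by
  rw [slice, card_filter]

lemma X_second (𝒜 : Finset (Finset (Fin n))) (i : ℕ) :
    X 𝒜 i + X 𝒜 (i + 2) = (𝒜 # i).card + 2 * X 𝒜 (i + 1) := by
  rw [card_slice_eq, X, X, X, ← sum_add_distrib, mul_sum, ← sum_add_distrib]
  refine sum_congr rfl fun s _ => ?_
  split_ifs with h <;> omega

lemma X_zero_of_gt (𝒜 : Finset (Finset (Fin n))) {i : ℕ} (h : n + 1 ≤ i) : X 𝒜 i = 0 := by
  rw [X, sum_eq_zero_iff]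
  intro s _
  have := card_finset_fin_le s
  omega

lemma exists_of_X_pos {𝒜 : Finset (Finset (Fin n))} {i : ℕ} (h : 1 ≤ X 𝒜 i) :
    ∃ s ∈ 𝒜, i ≤ s.card := by
  by_contra hcon
  push Not at hcon
  have : X 𝒜 i = 0 := by
    rw [X, sum_eq_zero_iff]
    intro s hs
    have := hcon s hs
    omega
  omega

lemma X_anti (𝒜 : Finset (Finset (Fin n))) (i : ℕ) : X 𝒜 (i + 1) ≤ X 𝒜 i := by
  rw [X, X]
  refine sum_le_sum fun s _ => ?_
  omega

lemma NN_step {𝒜 : Finset (Finset (Fin n))} (hA : IsAntichain (· ⊆ ·) (𝒜 : Set (Finset (Fin n))))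
    (i : ℕ) : NN 𝒜 i = (𝒜 # i).card + (∂ (falling (i + 1) 𝒜)).card := by
  rw [NN, ← slice_union_shadow_falling_succ, card_union_of_disjoint hA.disjoint_slice_shadow_falling]

lemma D_le_shadow_falling (𝒜 : Finset (Finset (Fin n))) (i : ℕ) :
    D i (NN 𝒜 i) ≤ (∂ (falling i 𝒜)).card :=
  D_le (sized_falling i 𝒜) le_rfl

/-- The chain inequalities. -/
lemma chain_aux {𝒜 : Finset (Finset (Fin n))}
    (hA : IsAntichain (· ⊆ ·) (𝒜 : Set (Finset (Fin n)))) (j : ℕ) :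
    ∀ i, 1 ≤ i → n + 1 ≤ i + j →
      D i (X 𝒜 i) + min 1 (X 𝒜 (i + 1)) ≤ D i (NN 𝒜 i) + X 𝒜 (i + 1) := by
  induction j with
  | zero =>
    intro i _ h
    rw [X_zero_of_gt 𝒜 (by omega : n + 1 ≤ i), X_zero_of_gt 𝒜 (by omega : n + 1 ≤ i + 1), D_zero]
    simp
  | succ j ih =>
    intro i hi h
    have h1 := ih (i + 1) (by omega) (by omega)
    have h2 := NN_step hA i
    have h3 := D_le_shadow_falling 𝒜 (i + 1)
    have h4 := X_second 𝒜 i
    have h5 := X_anti 𝒜 (i + 1)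
    rcases Nat.eq_zero_or_pos (X 𝒜 (i + 1)) with h0 | h0
    · have h6 : X 𝒜 (i + 2) = 0 := by
        have : X 𝒜 (i + 2) ≤ X 𝒜 (i + 1) := h5
        omega
      rw [h0]
      have h7 : X 𝒜 i ≤ NN 𝒜 i := by omega
      have := D_mono hi h7
      simp only [Nat.min_zero, add_zero]
      exact this
    · have h8 : X 𝒜 i + D (i + 1) (X 𝒜 (i + 1)) ≤ NN 𝒜 i + 2 * X 𝒜 (i + 1) := by
        have : X 𝒜 (i + 1 + 1) = X 𝒜 (i + 2) := rfl
        omega
      have h9 := lemE hi h0 h8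
      have : min 1 (X 𝒜 (i + 1)) = 1 := Nat.min_eq_left h0
      rw [this]
      exact h9

lemma chain {𝒜 : Finset (Finset (Fin n))}
    (hA : IsAntichain (· ⊆ ·) (𝒜 : Set (Finset (Fin n)))) {i : ℕ} (hi : 1 ≤ i) :
    D i (X 𝒜 i) + min 1 (X 𝒜 (i + 1)) ≤ D i (NN 𝒜 i) + X 𝒜 (i + 1) :=
  chain_aux hA (n + 1) i hi (by omega)

lemma chain0 {𝒜 : Finset (Finset (Fin n))}
    (hA : IsAntichain (· ⊆ ·) (𝒜 : Set (Finset (Fin n)))) (i : ℕ) :
    X 𝒜 i + D (i + 1) (X 𝒜 (i + 1)) ≤ NN 𝒜 i + 2 * X 𝒜 (i + 1) := by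
  have h1 := chain hA (i := i + 1) (by omega)
  have h2 := NN_step hA i
  have h3 := D_le_shadow_falling 𝒜 (i + 1)
  have h4 := X_second 𝒜 i
  have : X 𝒜 (i + 1 + 1) = X 𝒜 (i + 2) := rfl
  omega

/-! ### complementation -/

lemma antichain_compls {𝒜 : Finset (Finset (Fin n))}
    (hA : IsAntichain (· ⊆ ·) (𝒜 : Set (Finset (Fin n)))) :
    IsAntichain (· ⊆ ·) ((𝒜ᶜˢ : Finset (Finset (Fin n))) : Set (Finset (Fin n))) := by
  intro s hs t ht hne hst
  rw [mem_coe, mem_compls] at hs ht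
  exact hA ht hs (fun h => hne (compl_injective h.symm)) (compl_subset_compl.2 hst)

lemma sized_compls' {𝒜 : Finset (Finset (Fin n))} {k : ℕ}
    (hA : (𝒜 : Set (Finset (Fin n))).Sized k) :
    ((𝒜ᶜˢ : Finset (Finset (Fin n))) : Set (Finset (Fin n))).Sized (n - k) := by
  intro s hs
  rw [mem_coe, mem_compls] at hs
  have h1 := hA hs
  rw [card_compl, Fintype.card_fin] at h1
  have h2 := card_finset_fin_le s
  omega

lemma disj_count {𝒜 : Finset (Finset (Fin n))}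
    (hA : IsAntichain (· ⊆ ·) (𝒜 : Set (Finset (Fin n)))) {k : ℕ} (hk : 1 ≤ k) (hkn : k ≤ n) :
    (∂ (falling k 𝒜)).card + NN 𝒜ᶜˢ (n - k + 1) ≤ n.choose (k - 1) := by
  set E : Finset (Finset (Fin n)) := (falling (n - k + 1) 𝒜ᶜˢ)ᶜˢ with hE
  have hEc : E.card = NN 𝒜ᶜˢ (n - k + 1) := by rw [hE, card_compls, NN]
  have hEs : (E : Set (Finset (Fin n))).Sized (k - 1) := by
    have := sized_compls' (sized_falling (n - k + 1) 𝒜ᶜˢ)
    have e : n - (n - k + 1) = k - 1 := by omega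
    rwa [e] at this
  have hS : ((∂ (falling k 𝒜) : Finset (Finset (Fin n))) : Set (Finset (Fin n))).Sized (k - 1) :=
    (sized_falling k 𝒜).shadow
  have hdisj : Disjoint (∂ (falling k 𝒜)) E := by
    rw [disjoint_left]
    intro s hs hsE
    rw [mem_shadow_iff] at hs
    obtain ⟨t, ht, a, ha, rfl⟩ := hs
    rw [mem_falling] at ht
    obtain ⟨⟨u, hu, htu⟩, -⟩ := ht
    rw [hE, mem_compls, mem_falling] at hsE
    obtain ⟨⟨v, hv, hsv⟩, -⟩ := hsE
    rw [mem_compls] at hv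
    have h1 : vᶜ ⊆ t.erase a := by
      have := compl_subset_compl.2 hsv
      rwa [compl_compl] at this
    have h2 : vᶜ ⊆ u := h1.trans ((erase_subset _ _).trans htu)
    have h3 : vᶜ ≠ u := by
      intro h
      have h4 : a ∈ u := htu ha
      rw [← h] at h4
      exact (notMem_erase a t) (h1 h4)
    exact hA hv hu h3 h2
  rw [← hEc, ← card_union_of_disjoint hdisj]
  calc _ ≤ (powersetCard (k - 1) (univ : Finset (Fin n))).card := by
        refine card_le_card ?_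
        intro s hs
        rw [mem_powersetCard]
        refine ⟨subset_univ _, ?_⟩
        rcases mem_union.1 hs with h | h
        · exact hS h
        · exact hEs h
    _ = n.choose (k - 1) := by rw [card_powersetCard, card_univ, Fintype.card_fin]

/-- duality -/
lemma dual {k p q : ℕ} (hk : 1 ≤ k) (hkn : k ≤ n) (hp : p ≤ n.choose k)
    (h : D k p + q ≤ n.choose (k - 1)) : D (n - k + 1) q + p ≤ n.choose k := by
  obtain ⟨C, hC, hCp⟩ := exists_initSeg (n := n) (k := k) p hp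
  have h1 := card_shadow_initSeg hk hC hCp
  have hCs : C ⊆ powersetCard k (univ : Finset (Fin n)) := by
    intro s hs
    rw [mem_powersetCard]
    exact ⟨subset_univ _, hC.1 hs⟩
  have hSs : ∂ C ⊆ powersetCard (k - 1) (univ : Finset (Fin n)) := by
    intro s hs
    rw [mem_powersetCard]
    exact ⟨subset_univ _, hC.1.shadow hs⟩
  have hq : q ≤ (powersetCard (k - 1) (univ : Finset (Fin n)) \ ∂ C).card := by
    rw [card_sdiff_of_subset hSs, card_powersetCard, card_univ, Fintype.card_fin, h1]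
    omega
  obtain ⟨Q, hQs, hQc⟩ := exists_subset_card_eq hq
  have hQsized : (Q : Set (Finset (Fin n))).Sized (k - 1) := by
    intro s hs
    have := hQs hs
    rw [mem_sdiff, mem_powersetCard] at this
    exact this.1.2
  have hQc' : ((Qᶜˢ : Finset (Finset (Fin n))) : Set (Finset (Fin n))).Sized (n - k + 1) := by
    have := sized_compls' hQsized
    have e : n - (k - 1) = n - k + 1 := by omega
    rwa [e] at this
  have h2 : D (n - k + 1) q ≤ (∂ Qᶜˢ).card := D_le hQc' (by rw [card_compls, hQc])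
  have h3 : (∂ Qᶜˢ)ᶜˢ ⊆ powersetCard k (univ : Finset (Fin n)) \ C := by
    intro s hs
    rw [mem_compls, mem_shadow_iff] at hs
    obtain ⟨t, ht, a, ha, hts⟩ := hs
    rw [mem_compls] at ht
    have hs' : s = insert a tᶜ := by
      rw [← compl_compl s, ← hts, compl_erase]
    rw [mem_sdiff, mem_powersetCard]
    have hta : a ∉ tᶜ := by
      rw [mem_compl, not_not]; exact ha
    have htc : tᶜ.card = k - 1 := hQsized ht
    refine ⟨⟨subset_univ _, ?_⟩, ?_⟩
    · rw [hs', card_insert_of_notMem hta, htc]; omega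
    · intro hsC
      have h4 := hQs ht
      rw [mem_sdiff] at h4
      apply h4.2
      rw [mem_shadow_iff]
      exact ⟨s, hsC, a, by rw [hs']; exact mem_insert_self _ _, by rw [hs', erase_insert hta]⟩
  have h4 := card_le_card h3
  rw [card_compls, card_sdiff_of_subset hCs, card_powersetCard, card_univ, Fintype.card_fin, hCp] at h4
  omega

lemma le_choose_of_D {k p : ℕ} (hk : 2 ≤ k) (hkn : k ≤ n) (h : D k p ≤ n.choose (k - 1)) :
    p ≤ n.choose k := by
  by_contra hcon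
  push Not at hcon
  have h1 := D_mono (by omega : 1 ≤ k) hcon
  have h3 : 1 ≤ n.choose (k - 1) := Nat.choose_pos (by omega)
  have h2 := D_rec (m := n) (k := k - 1) (x := 1) (by omega) (by omega) h3
  rw [Nat.sub_add_cancel (by omega : 1 ≤ k), D_k_one (by omega : 1 ≤ k - 1)] at h2
  have h4 : D k (n.choose k + 1) ≤ D k p := h1
  omega

/-- Case 1. -/
lemma case1 {𝒜 : Finset (Finset (Fin n))}
    (hA : IsAntichain (· ⊆ ·) (𝒜 : Set (Finset (Fin n)))) {k a b : ℕ} (hk : 1 ≤ k) (hkn : k ≤ n)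
    (h1 : X 𝒜 k = a + X 𝒜ᶜˢ (n - k + 2)) (h2 : X 𝒜ᶜˢ (n - k + 1) = b + X 𝒜 (k + 1))
    (hnf : 1 ≤ X 𝒜 (k + 1) ∨ 1 ≤ X 𝒜ᶜˢ (n - k + 2))
    (hc : X 𝒜 (k + 1) ≤ NN 𝒜ᶜˢ (n - k + 1)) :
    D k a + b + 1 ≤ n.choose (k - 1) ∨ D (n - k + 1) b + a + 1 ≤ n.choose k := by
  have hA' := antichain_compls hA
  have c1 := chain hA hk
  have c2 := disj_count hA hk hkn
  have c3 := D_le_shadow_falling 𝒜 k
  rcases Nat.eq_zero_or_pos (X 𝒜ᶜˢ (n - k + 2)) with h0 | h0
  · left
    have hX2 : 1 ≤ X 𝒜 (k + 1) := by omega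
    rw [Nat.min_eq_left hX2] at c1
    have c4 := NN_step hA' (n - k + 1)
    have c5 := X_second 𝒜ᶜˢ (n - k + 1)
    have c6 := X_anti 𝒜ᶜˢ (n - k + 2)
    have e1 : n - k + 1 + 1 = n - k + 2 := rfl
    have e2 : n - k + 1 + 2 = n - k + 2 + 1 := rfl
    rw [e1, e2] at c5
    rw [h0, add_zero] at h1
    rw [h1] at c1
    omega
  · right
    have hk2 : 2 ≤ k := by
      obtain ⟨s, hs, hsc⟩ := exists_of_X_pos h0
      have := card_finset_fin_le s
      omega
    set M' := NN 𝒜ᶜˢ (n - k + 1) - X 𝒜 (k + 1) with hM'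
    have d1 : D k (X 𝒜 k) + M' ≤ n.choose (k - 1) := by omega
    have d2 : X 𝒜 k ≤ n.choose k := le_choose_of_D hk2 hkn (by omega)
    have d3 := dual hk hkn d2 d1
    have c7 := chain0 hA' (n - k + 1)
    have e1 : n - k + 1 + 1 = n - k + 2 := rfl
    rw [e1] at c7
    have d4 : b + D (n - k + 1 + 1) (X 𝒜ᶜˢ (n - k + 2)) ≤ M' + 2 * X 𝒜ᶜˢ (n - k + 2) := by
      rw [e1]; omega
    have d5 := lemE (k := n - k + 1) (by omega) h0 d4
    omega

end Pool.Agent.Helper60.FA
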