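import Pool.Agent.Helper60.FA.RBound

/-!
Lemma F and its consequence (E).
-/

namespace Pool.Agent.Helper60.FA

theorem lemF {k x : ℕ} (hk : 1 ≤ k) (hx : 1 ≤ x) : D k (2 * x - D (k + 1) x) < x := by
  by_cases hT0 : 2 * x - D (k + 1) x = 0
  · rw [hT0, D_zero]; omega
  obtain ⟨m, hm, h1, h2⟩ := exists_block (k := k + 1) (by omega) (M := k + 1) (t := x)
    (by rw [Nat.choose_self]; exact hx)
  obtain ⟨y, rfl⟩ : ∃ y, x = m.choose (k + 1) + y := ⟨x - m.choose (k + 1), by omega⟩
  have hy : y ≤ m.choose k := by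
    rw [Nat.choose_succ_succ' m k] at h2
    omega
  have hrec := D_rec hk hm hy
  have hlym1 := D_lym (m := m + 1) (k := k + 1) (x := m.choose (k + 1) + y) (by omega) h2.le
  have hlym2 := D_lym hk hy
  have hmk : k ≤ 2 * (m - k) := by
    by_contra hcon
    apply hT0
    have h3 : 2 * (m + 1 - (k + 1) + 1) ≤ k + 1 := by omega
    have h4 : D (k + 1) (m.choose (k + 1) + y) * (2 * (m + 1 - (k + 1) + 1)) ≤
        D (k + 1) (m.choose (k + 1) + y) * (k + 1) := Nat.mul_le_mul_left _ h3
    have h5 : 2 * (m.choose (k + 1) + y) * (k + 1) ≤ D (k + 1) (m.choose (k + 1) + y) * (k + 1) := by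
      calc 2 * (m.choose (k + 1) + y) * (k + 1) = 2 * ((m.choose (k + 1) + y) * (k + 1)) := by ring
        _ ≤ 2 * (D (k + 1) (m.choose (k + 1) + y) * (m + 1 - (k + 1) + 1)) :=
          Nat.mul_le_mul_left _ hlym1
        _ = D (k + 1) (m.choose (k + 1) + y) * (2 * (m + 1 - (k + 1) + 1)) := by ring
        _ ≤ _ := h4
    have h6 := Nat.le_of_mul_le_mul_right h5 (by omega)
    omega
  have hL := L_ineq hk hm hmk
  set T := 2 * (m.choose (k + 1) + y) - D (k + 1) (m.choose (k + 1) + y) with hT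
  have hTq : (T : ℚ) = 2 * ((m.choose (k + 1) : ℚ) + y) - m.choose k - D k y := by
    have h3 : T + (m.choose k + D k y) = 2 * (m.choose (k + 1) + y) := by
      rw [← hrec]; omega
    have h4 : ((T + (m.choose k + D k y) : ℕ) : ℚ) = ((2 * (m.choose (k + 1) + y) : ℕ) : ℚ) := by
      rw [h3]
    push_cast at h4
    linarith
  have hlin := D_lin m k hk (by omega) T
  have hu0 : ((m - k : ℕ) : ℚ) = (m : ℚ) - k := by rw [Nat.cast_sub (by omega)]
  set u : ℚ := (m : ℚ) - k with hu
  have hu1 : 1 ≤ u := by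
    have : (k : ℚ) + 1 ≤ m := by exact_mod_cast hm
    rw [hu]; linarith
  have hmq : (m : ℚ) = u + k := by rw [hu]; ring
  have hkq : (1 : ℚ) ≤ k := by exact_mod_cast hk
  have I1 : (m.choose k : ℚ) * k = (m.choose (k - 1) : ℚ) * (u + 1) := by
    have := Nat.choose_succ_right_eq m (k - 1)
    rw [Nat.sub_add_cancel hk] at this
    have h3 : ((m - (k - 1) : ℕ) : ℚ) = u + 1 := by
      rw [Nat.cast_sub (by omega), Nat.cast_sub hk, hu]; push_cast; ring
    rw [← h3]
    exact_mod_cast this
  have I2 : (m.choose (k + 1) : ℚ) * (k + 1) = (m.choose k : ℚ) * u := by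
    have := Nat.choose_succ_right_eq m k
    rw [← hu0]
    exact_mod_cast this
  have hA : (0 : ℚ) < m.choose (k + 1) := by exact_mod_cast Nat.choose_pos hm
  have hly : (y : ℚ) * k ≤ D k y * (u + 1) := by
    have h3 : ((m - k + 1 : ℕ) : ℚ) = u + 1 := by push_cast; rw [hu0]
    rw [← h3]
    exact_mod_cast hlym2
  set A : ℚ := ((m.choose (k + 1) : ℕ) : ℚ) with hAdef
  set B : ℚ := ((m.choose k : ℕ) : ℚ) with hBdef
  set r := R m k with hr
  have hy0 : (0 : ℚ) ≤ y := by positivity
  -- main inequality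
  have e1 : k * (2 * A - B) + r * k * B < (u + 1) * A := by
    have h3 : u * (k * (2 * A - B) + r * k * B) < u * ((u + 1) * A) := by
      have h4 : u * (k * (2 * A - B) + r * k * B) =
          A * (2 * k * u - k * (k + 1) + k * (k + 1) * r) := by
        have : u * B = A * (k + 1) := by linarith
        linear_combination (-(k : ℚ) + r * k) * this
      rw [h4]
      have h5 : (m : ℚ) - 2 * k = u - k := by rw [hmq]; ring
      rw [h5, hmq] at hL
      have h6 : 2 * k * u - k * (k + 1) + k * (k + 1) * r < u * (u + 1) := by nlinarith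
      calc A * (2 * k * u - k * (k + 1) + k * (k + 1) * r) < A * (u * (u + 1)) :=
            mul_lt_mul_of_pos_left h6 hA
        _ = _ := by ring
    exact lt_of_mul_lt_mul_left h3 (by linarith)
  have e2 : (u + 1) * (k * T) + (u + 1) * (r * k * B) < (u + 1) * ((u + 1) * (A + y)) := by
    rw [hTq]
    have h3 : (u + 1) * (k * (2 * A - B) + r * k * B) < (u + 1) * ((u + 1) * A) :=
      mul_lt_mul_of_pos_left e1 (by linarith)
    have h4 : (k : ℚ) * (y * k) ≤ k * (D k y * (u + 1)) := mul_le_mul_of_nonneg_left hly (by linarith)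
    have h5 : (0 : ℚ) ≤ y * ((u + 1) - k) ^ 2 := by positivity
    nlinarith
  have e3 : (D k T : ℚ) < A + y := by
    have h3 : (u + 1) * (D k T : ℚ) ≤ k * T + r * k * B := by
      have h4 : (u + 1) * (D k T : ℚ) ≤ (u + 1) * (k / (u + 1) * T + r * (m.choose (k - 1) : ℚ)) :=
        mul_le_mul_of_nonneg_left hlin (by linarith)
      have h5 : (u + 1) * (k / (u + 1) * T + r * (m.choose (k - 1) : ℚ)) = k * T + r * k * B := by
        have hune : u + 1 ≠ 0 := by linarith
        have : (u + 1) * (k / (u + 1) * T) = k * T := by field_simp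
        rw [mul_add, this]
        linear_combination (-r) * I1
      linarith
    have h6 : (u + 1) * ((u + 1) * (D k T : ℚ)) ≤ (u + 1) * (k * T + r * k * B) :=
      mul_le_mul_of_nonneg_left h3 (by linarith)
    have h7 : (u + 1) * ((u + 1) * (D k T : ℚ)) < (u + 1) * ((u + 1) * (A + y)) := by linarith
    have h8 := lt_of_mul_lt_mul_left h7 (by linarith)
    exact lt_of_mul_lt_mul_left h8 (by linarith)
  have e4 : ((D k T : ℕ) : ℚ) < ((m.choose (k + 1) + y : ℕ) : ℚ) := by
    push_cast
    exact e3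
  exact_mod_cast e4

/-- (E) -/
theorem lemE {k x c s : ℕ} (hk : 1 ≤ k) (hx : 1 ≤ x) (h : c + D (k + 1) x ≤ s + 2 * x) :
    D k c + 1 ≤ D k s + x := by
  have h1 := lemF hk hx
  have h2 : c ≤ s + (2 * x - D (k + 1) x) := by omega
  have h3 := D_mono hk h2
  have h4 := D_subadd hk s (2 * x - D (k + 1) x)
  omega

end Pool.Agent.Helper60.FA
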