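import Pool.Agent.Helper60.FA.Rec

/-!
Linear upper bounds for the minimum shadow function.
-/

namespace Pool.Agent.Helper60.FA

open Finset

/-- normalized excess -/
def R : ℕ → ℕ → ℚ
  | 0, _ => 0
  | m + 1, k =>
    if m + 1 ≤ k then 0 else if k = 1 then (m : ℚ) / (m + 1) else
    if m = 2 ∧ k = 2 then 1 / 3 else
    1 / ((m : ℚ) + 1) + max (((m : ℚ) + 2 - k) / (m + 1) * R m k)
      (((k : ℚ) - 1) / (m + 1) * R m (k - 1))

lemma R_diag {m k : ℕ} (h : m ≤ k) : R m k = 0 := by
  cases m with
  | zero => rfl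
  | succ m => rw [R, if_pos h]

lemma R_one {m : ℕ} (h : 1 ≤ m) : R (m + 1) 1 = (m : ℚ) / (m + 1) := by
  rw [R, if_neg (by omega), if_pos rfl]

lemma R_rec {m k : ℕ} (hk : 2 ≤ k) (hm : k ≤ m) (h : ¬ (m = 2 ∧ k = 2)) :
    R (m + 1) k = 1 / ((m : ℚ) + 1) + max (((m : ℚ) + 2 - k) / (m + 1) * R m k)
      (((k : ℚ) - 1) / (m + 1) * R m (k - 1)) := by
  rw [R, if_neg (by omega), if_neg (by omega), if_neg h]

lemma exists_block {k : ℕ} (hk : 1 ≤ k) {M t : ℕ} (h : M.choose k ≤ t) :
    ∃ N, M ≤ N ∧ N.choose k ≤ t ∧ t < (N + 1).choose k := by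
  have hex : ∃ N, t < (N + 1).choose k := by
    refine ⟨t + k, ?_⟩
    obtain ⟨j, rfl⟩ : ∃ j, k = j + 1 := ⟨k - 1, by omega⟩
    have h1 : (t + (j + 1)).choose (j + 1) = (t + (j+1)).choose t := by
      rw [Nat.choose_symm_add]
    have h2 : (t + (j + 1)).choose (j + 1) ≤ (t + (j + 1) + 1).choose (j + 1) :=
      Nat.choose_le_choose _ (by omega)
    have h3 : t + 1 ≤ (t + (j + 1)).choose t := by
      calc t + 1 = (t + 1).choose t := by simp
        _ ≤ (t + (j + 1)).choose t := Nat.choose_le_choose _ (by omega)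
    omega
  classical
  set N := Nat.find hex with hN
  have hN1 : t < (N + 1).choose k := Nat.find_spec hex
  have hMN : M ≤ N := by
    by_contra hcon
    push Not at hcon
    have : (N + 1).choose k ≤ M.choose k := Nat.choose_le_choose _ hcon
    omega
  refine ⟨N, hMN, ?_, hN1⟩
  by_contra hcon
  push Not at hcon
  rcases Nat.eq_zero_or_pos N with h0 | h0
  · have : M = 0 := by omega
    rw [this] at h
    rw [h0] at hcon
    omega
  · have h2 := Nat.find_min hex (m := N - 1) (by omega)
    apply h2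
    rwa [Nat.sub_add_cancel h0]

lemma D_k_one {k : ℕ} (hk : 1 ≤ k) : D k 1 = k := by
  have := D_choose hk (le_refl k)
  rw [Nat.choose_self] at this
  rw [this, ← Nat.choose_symm (by omega : k - 1 ≤ k)]
  have : k - (k - 1) = 1 := by omega
  rw [this, Nat.choose_one_right]

lemma D_le_mul {k : ℕ} (hk : 1 ≤ k) (t : ℕ) : D k t ≤ k * t := by
  induction t with
  | zero => rw [D_zero]; simp
  | succ t ih =>
    have := D_subadd hk t 1
    rw [D_k_one hk] at this
    rw [mul_add, mul_one]
    omega

lemma D_two (t : ℕ) : D 2 t ≤ t + 1 := by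
  rcases Nat.eq_zero_or_pos t with h0 | h0
  · rw [h0, D_zero]; omega
  · obtain ⟨N, hN, h1, h2⟩ := exists_block (k := 2) (by norm_num) (M := 2) (t := t) (by rw [Nat.choose_self]; exact h0)
    obtain ⟨x, rfl⟩ : ∃ x, t = N.choose 2 + x := ⟨t - N.choose 2, by omega⟩
    have hx : x < N := by
      rw [show (2 : ℕ) = 1 + 1 from rfl, Nat.choose_succ_succ' N 1, Nat.choose_one_right] at h2
      simp only [Nat.reduceAdd] at h2
      omega
    have h3 := D_rec (m := N) (k := 1) (x := x) le_rfl (by omega) (by rw [Nat.choose_one_right]; omega)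
    rw [h3, Nat.choose_one_right]
    have hD : D 1 x ≤ x := by
      rcases Nat.eq_zero_or_pos x with h | h
      · rw [h, D_zero]
      · rw [D_one h]; exact h
    have hD' : D 1 x ≤ 1 := by
      rcases Nat.eq_zero_or_pos x with h | h
      · rw [h, D_zero]; omega
      · rw [D_one h]
    by_cases hN3 : N = 2
    · subst hN3
      simp only [Nat.choose_self]
      omega
    · have : N ≤ N.choose 2 := by
        rw [Nat.choose_two_right]
        have : N * 2 ≤ N * (N - 1) := Nat.mul_le_mul_left _ (by omega)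
        omega
      omega

/-- The linear bound. -/
theorem D_lin (m : ℕ) : ∀ (k : ℕ), 1 ≤ k → k ≤ m → ∀ t : ℕ,
    (D k t : ℚ) ≤ k / ((m : ℚ) - k + 1) * t + R m k * (m.choose (k - 1)) := by
  induction m with
  | zero => intro k hk hkm; omega
  | succ m ih =>
    intro k hk hkm t
    push_cast
    by_cases hd : k = m + 1
    · rw [R_diag (by omega : m + 1 ≤ k), hd]
      have h1 := D_le_mul (k := m + 1) (by omega) t
      have h2 : (D (m + 1) t : ℚ) ≤ (m + 1) * t := by exact_mod_cast h1
      have h3 : ((m : ℚ) + 1 - ((m + 1 : ℕ) : ℚ) + 1) = 1 := by push_cast; ring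
      rw [h3]
      push_cast
      linarith
    have hkm' : k ≤ m := by omega
    by_cases hk1 : k = 1
    · subst hk1
      rw [R_one hkm']
      have hm0 : (0 : ℚ) < m + 1 := by positivity
      have hm1 : (0 : ℚ) ≤ m := by positivity
      simp only [Nat.cast_one, Nat.sub_self, Nat.choose_zero_right, mul_one]
      rcases Nat.eq_zero_or_pos t with h0 | h0
      · rw [h0, D_zero]; simp; positivity
      · rw [D_one h0]
        have ht : (1 : ℚ) ≤ t := by exact_mod_cast h0
        have e : (m : ℚ) + 1 - 1 + 1 = m + 1 := by ring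
        rw [e, div_mul_eq_mul_div, ← add_div, le_div_iff₀ hm0]
        push_cast
        linarith
    by_cases hsp : m = 2 ∧ k = 2
    · obtain ⟨rfl, rfl⟩ := hsp
      have h1 : R (2 + 1) 2 = 1 / 3 := by
        rw [R, if_neg (by omega), if_neg (by omega), if_pos ⟨rfl, rfl⟩]
      rw [h1]
      have h2 : (D 2 t : ℚ) ≤ t + 1 := by exact_mod_cast D_two t
      norm_num
      linarith
    have hk2 : 2 ≤ k := by omega
    rw [R_rec hk2 hkm' hsp]
    -- notation
    have hkq : (2 : ℚ) ≤ k := by exact_mod_cast hk2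
    have hkmq : (k : ℚ) ≤ m := by exact_mod_cast hkm'
    set P : ℚ := (m.choose (k - 1) : ℚ) with hPdef
    set W : ℚ := ((m + 1).choose (k - 1) : ℚ) with hWdef
    have hP0 : 0 ≤ P := by positivity
    have hW0 : 0 ≤ W := by positivity
    -- (I2)
    have I2 : P * ((m : ℚ) + 1) = W * ((m : ℚ) - k + 2) := by
      have := Nat.choose_mul_succ_eq m (k - 1)
      have h2 : (((m + 1 - (k - 1) : ℕ)) : ℚ) = (m : ℚ) - k + 2 := by
        have : m + 1 - (k - 1) + k = m + 2 := by omega
        have h3 : ((m + 1 - (k - 1) + k : ℕ) : ℚ) = m + 2 := by rw [this]; push_cast; ring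
        push_cast at h3 ⊢
        linarith
      rw [hPdef, hWdef, ← h2]
      exact_mod_cast this
    -- (I3)
    have I3 : ((m : ℚ) + 1) * (m.choose (k - 1 - 1) : ℚ) = W * ((k : ℚ) - 1) := by
      have := Nat.add_one_mul_choose_eq m (k - 1 - 1)
      have h1 : k - 1 - 1 + 1 = k - 1 := by omega
      rw [h1] at this
      have h2 : ((k - 1 : ℕ) : ℚ) = (k : ℚ) - 1 := by
        rw [Nat.cast_sub (by omega)]; simp
      rw [hWdef, ← h2]
      exact_mod_cast this
    -- (I1)
    have I1 : ∀ N : ℕ, k ≤ N → (N.choose k : ℚ) * k = (N.choose (k - 1) : ℚ) * ((N : ℚ) - k + 1) := by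
      intro N hN
      have := Nat.choose_succ_right_eq N (k - 1)
      rw [Nat.sub_add_cancel (by omega : 1 ≤ k)] at this
      have h2 : ((N - (k - 1) : ℕ) : ℚ) = (N : ℚ) - k + 1 := by
        have : N - (k - 1) + k = N + 1 := by omega
        have h3 : ((N - (k - 1) + k : ℕ) : ℚ) = N + 1 := by rw [this]; push_cast; ring
        push_cast at h3 ⊢
        linarith
      rw [← h2]
      exact_mod_cast this
    have hden : (0 : ℚ) < (m : ℚ) - k + 2 := by linarith
    have hden1 : (0 : ℚ) < (m : ℚ) - k + 1 := by linarith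
    have hM : (0 : ℚ) < (m : ℚ) + 1 := by linarith
    have eden : (m : ℚ) + 1 - k + 1 = (m : ℚ) - k + 2 := by ring
    have eden' : (m : ℚ) + 2 - k = (m : ℚ) - k + 2 := by ring
    rw [eden, eden']
    set R1 := ((m : ℚ) - k + 2) / (m + 1) * R m k
    set R2 := ((k : ℚ) - 1) / (m + 1) * R m (k - 1)
    by_cases htA : t ≤ m.choose k
    · -- case A
      have h1 := ih k hk hkm' t
      have htq : (t : ℚ) ≤ m.choose k := by exact_mod_cast htA
      have hI1 := I1 m hkm'
      have ht0 : (0 : ℚ) ≤ t := by positivity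
      -- slopes
      have hs : (k : ℚ) / ((m : ℚ) - k + 1) * t ≤ k / ((m : ℚ) - k + 2) * t + P / ((m : ℚ) - k + 2) := by
        have e1 : (k : ℚ) / ((m : ℚ) - k + 1) * t - k / ((m : ℚ) - k + 2) * t =
            k * t / (((m : ℚ) - k + 1) * ((m : ℚ) - k + 2)) := by
          field_simp; ring
        have e2 : (k : ℚ) * t / (((m : ℚ) - k + 1) * ((m : ℚ) - k + 2)) ≤ P / ((m : ℚ) - k + 2) := by
          rw [div_le_div_iff₀ (by positivity) hden]
          have : (k : ℚ) * t ≤ P * ((m : ℚ) - k + 1) := by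
            rw [hPdef, ← hI1]
            nlinarith
          nlinarith
        linarith
      have e3 : P / ((m : ℚ) - k + 2) = 1 / ((m : ℚ) + 1) * W := by
        field_simp; linarith
      have e4 : R m k * P = R1 * W := by
        show R m k * P = ((m : ℚ) - k + 2) / (m + 1) * R m k * W
        field_simp
        linear_combination R m k * I2
      have e5 : R1 * W ≤ max R1 R2 * W := mul_le_mul_of_nonneg_right (le_max_left _ _) hW0
      calc (D k t : ℚ) ≤ k / ((m : ℚ) - k + 1) * t + R m k * P := h1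
        _ ≤ k / ((m : ℚ) - k + 2) * t + P / ((m : ℚ) - k + 2) + R m k * P := by linarith
        _ = k / ((m : ℚ) - k + 2) * t + (1 / ((m : ℚ) + 1) * W + R1 * W) := by rw [e3, e4]; ring
        _ ≤ k / ((m : ℚ) - k + 2) * t + (1 / ((m : ℚ) + 1) * W + max R1 R2 * W) := by linarith
        _ = _ := by ring
    · -- case B
      push Not at htA
      obtain ⟨N, hN, hN1, hN2⟩ := exists_block hk htA.le
      obtain ⟨x, rfl⟩ : ∃ x, t = N.choose k + x := ⟨t - N.choose k, by omega⟩
      have hx : x ≤ N.choose (k - 1) := by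
        have := Nat.choose_succ_succ' N (k - 1)
        rw [Nat.sub_add_cancel (by omega : 1 ≤ k)] at this
        omega
      have hrec := D_rec (m := N) (k := k - 1) (x := x) (by omega) (by omega) hx
      rw [Nat.sub_add_cancel (by omega : 1 ≤ k)] at hrec
      have h1 := ih (k - 1) (by omega) (by omega) x
      have hk1q : ((k - 1 : ℕ) : ℚ) = (k : ℚ) - 1 := by
        rw [Nat.cast_sub (by omega)]; simp
      rw [hk1q] at h1
      have ed : (m : ℚ) - ((k : ℚ) - 1) + 1 = (m : ℚ) - k + 2 := by ring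
      rw [ed] at h1
      have hx0 : (0 : ℚ) ≤ x := by positivity
      rw [hrec]
      push_cast
      have hI1 := I1 N (by omega)
      have e4 : R m (k - 1) * (m.choose (k - 1 - 1) : ℚ) = R2 * W := by
        show R m (k - 1) * (m.choose (k - 1 - 1) : ℚ) = ((k : ℚ) - 1) / (m + 1) * R m (k - 1) * W
        field_simp
        linear_combination R m (k - 1) * I3
      have e5 : R2 * W ≤ max R1 R2 * W := mul_le_mul_of_nonneg_right (le_max_right _ _) hW0
      have hsx : ((k : ℚ) - 1) / ((m : ℚ) - k + 2) * x ≤ k / ((m : ℚ) - k + 2) * x := by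
        gcongr
        linarith
      have hmain : (N.choose (k - 1) : ℚ) ≤ k / ((m : ℚ) - k + 2) * (N.choose k : ℚ) +
          1 / ((m : ℚ) + 1) * W := by
        rcases Nat.eq_or_lt_of_le hN with hNm | hNm
        · rw [← hNm]
          rw [← hNm] at hI1
          have e3 : P / ((m : ℚ) - k + 2) = 1 / ((m : ℚ) + 1) * W := by
            field_simp; linarith
          rw [← e3, ← hPdef]
          have e6 : (k : ℚ) / ((m : ℚ) - k + 2) * (m.choose k : ℚ) =
              P * ((m : ℚ) - k + 1) / ((m : ℚ) - k + 2) := by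
            rw [hPdef, ← hI1]; ring
          rw [e6, ← add_div, le_div_iff₀ hden]
          linarith
        · have hNq : (m : ℚ) + 1 ≤ N := by exact_mod_cast hNm
          have e6 : (k : ℚ) / ((m : ℚ) - k + 2) * (N.choose k : ℚ) =
              (N.choose (k - 1) : ℚ) * ((N : ℚ) - k + 1) / ((m : ℚ) - k + 2) := by
            rw [← hI1]; ring
          have e7 : (N.choose (k - 1) : ℚ) ≤
              (N.choose (k - 1) : ℚ) * ((N : ℚ) - k + 1) / ((m : ℚ) - k + 2) := by
            rw [le_div_iff₀ hden]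
            have : (0 : ℚ) ≤ N.choose (k - 1) := by positivity
            nlinarith
          have e8 : 0 ≤ 1 / ((m : ℚ) + 1) * W := by positivity
          rw [e6]
          linarith
      calc (N.choose (k - 1) : ℚ) + D (k - 1) x
          ≤ (k / ((m : ℚ) - k + 2) * (N.choose k : ℚ) + 1 / ((m : ℚ) + 1) * W) +
            (((k : ℚ) - 1) / ((m : ℚ) - k + 2) * x + R m (k - 1) * (m.choose (k - 1 - 1) : ℚ)) :=
            add_le_add hmain h1
        _ ≤ (k / ((m : ℚ) - k + 2) * (N.choose k : ℚ) + 1 / ((m : ℚ) + 1) * W) +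
            (k / ((m : ℚ) - k + 2) * x + max R1 R2 * W) := by rw [e4]; linarith
        _ = _ := by ring

end Pool.Agent.Helper60.FA
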