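import Pool.Agent.Helper60.FA.Lin

/-!
Bounds for the coefficients `R m k`.
-/

namespace Pool.Agent.Helper60.FA

lemma R_base : ∀ k : ℕ, k < 12 → 3 ≤ k → (2 * k ≤ 12 → 2 * (k : ℚ) * R 11 k ≤ 3) ∧
    (12 ≤ 2 * k → 2 * ((12 : ℚ) - k) * R 11 k ≤ 3) := by
  decide +kernel

lemma L_base : ∀ m : ℕ, m < 12 → ∀ k : ℕ, k < m → 1 ≤ k → k ≤ 2 * (m - k) →
    (k : ℚ) * (k + 1) * R m k < ((m : ℚ) - 2 * k) ^ 2 + m := by
  decide +kernel

lemma R_one_le {m : ℕ} : R m 1 ≤ 1 := by
  rcases Nat.lt_or_ge 1 m with h | h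
  · obtain ⟨n, rfl⟩ : ∃ n, m = n + 1 := ⟨m - 1, by omega⟩
    rw [R_one (by omega), div_le_one (by positivity)]
    linarith
  · rw [R_diag h]; norm_num

lemma R_mul_rec {m k : ℕ} (hk : 2 ≤ k) (hm : k ≤ m) (h : ¬ (m = 2 ∧ k = 2)) :
    ((m : ℚ) + 1) * R (m + 1) k = 1 + max (((m : ℚ) + 2 - k) * R m k)
      (((k : ℚ) - 1) * R m (k - 1)) := by
  rw [R_rec hk hm h]
  have hM : (0 : ℚ) < (m : ℚ) + 1 := by positivity
  rw [mul_add, mul_one_div_cancel hM.ne', mul_max_of_nonneg _ _ hM.le]
  congr 2
  · field_simp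
  · field_simp

lemma R_two_le (m : ℕ) : R m 2 ≤ 1 := by
  induction m with
  | zero => rw [R_diag (by omega)]; norm_num
  | succ m ih =>
    by_cases h1 : m + 1 ≤ 2
    · rw [R_diag h1]; norm_num
    by_cases h2 : m = 2
    · subst h2
      rw [R, if_neg (by omega), if_neg (by omega), if_pos ⟨rfl, rfl⟩]
      norm_num
    have h3 := R_mul_rec (m := m) (k := 2) le_rfl (by omega) (by omega)
    have hM : (0 : ℚ) < (m : ℚ) + 1 := by positivity
    have hm3 : (3 : ℚ) ≤ m := by exact_mod_cast (by omega : 3 ≤ m)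
    have h4 : max (((m : ℚ) + 2 - (2 : ℕ)) * R m 2) ((((2 : ℕ) : ℚ) - 1) * R m (2 - 1)) ≤ m := by
      push_cast
      refine max_le ?_ ?_
      · nlinarith
      · have := R_one_le (m := m)
        norm_num
        linarith
    have h5 : ((m : ℚ) + 1) * R (m + 1) 2 ≤ ((m : ℚ) + 1) * 1 := by
      rw [h3, mul_one]; linarith
    exact le_of_mul_le_mul_left h5 hM

/-- closed form bound -/
lemma R_bd (m : ℕ) (hm : 11 ≤ m) : ∀ k, 3 ≤ k → k ≤ m →
    (2 * k ≤ m + 1 → 2 * (k : ℚ) * R m k ≤ 3) ∧
    (m + 1 ≤ 2 * k → 2 * ((m : ℚ) + 1 - k) * R m k ≤ 3) := by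
  induction m, hm using Nat.le_induction with
  | base =>
    intro k hk hkm
    have := R_base k (by omega) hk
    refine ⟨fun h => this.1 (by omega), fun h => ?_⟩
    have h2 := this.2 (by omega)
    norm_num
    exact h2
  | succ m hm ih =>
    intro k hk hkm
    by_cases hkd : k = m + 1
    · rw [R_diag (by omega : m + 1 ≤ k)]
      constructor <;> intro _ <;> norm_num
    have hkm' : k ≤ m := by omega
    have hrec := R_mul_rec (m := m) (k := k) (by omega) hkm' (by omega)
    have hM : (0 : ℚ) < (m : ℚ) + 1 := by positivity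
    have hkq : (3 : ℚ) ≤ k := by exact_mod_cast hk
    have hmq : (11 : ℚ) ≤ m := by exact_mod_cast hm
    have hkmq : (k : ℚ) ≤ m := by exact_mod_cast hkm'
    obtain ⟨ih1, ih2⟩ := ih k hk hkm'
    have hR2 := R_two_le m
    set r := R (m + 1) k with hr
    set r1 := R m k with hr1
    set r2 := R m (k - 1) with hr2
    -- facts about r2
    have hr2a : 2 * k ≤ m + 2 → 2 * ((k : ℚ) - 1) * r2 ≤ 3 ∨ (k = 3 ∧ r2 ≤ 1) := by
      intro h
      by_cases hk3 : k = 3
      · right
        refine ⟨hk3, ?_⟩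
        rw [hr2, hk3]
        exact hR2
      · left
        have := (ih (k - 1) (by omega) (by omega)).1 (by omega)
        rwa [Nat.cast_sub (by omega), Nat.cast_one] at this
    constructor
    · intro h
      have hq : 2 * (k : ℚ) ≤ m + 2 := by exact_mod_cast (by omega : 2 * k ≤ m + 2)
      have key : 2 * (k : ℚ) * (1 + max (((m : ℚ) + 2 - k) * r1) (((k : ℚ) - 1) * r2)) ≤
          3 * ((m : ℚ) + 1) := by
        rw [mul_add, mul_max_of_nonneg _ _ (by linarith), ← max_add_add_left]
        refine max_le ?_ ?_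
        · rcases Nat.lt_or_ge (m + 1) (2 * k) with h1 | h1
          · -- 2k = m+2
            have e : (m : ℚ) = 2 * k - 2 := by
              have : m + 2 = 2 * k := by omega
              have h3 : ((m + 2 : ℕ) : ℚ) = ((2 * k : ℕ) : ℚ) := by rw [this]
              push_cast at h3
              linarith
            have h2 := ih2 (by omega)
            have hk7 : (7 : ℚ) ≤ k := by exact_mod_cast (by omega : 7 ≤ k)
            rw [e] at h2 ⊢
            have h4 : 2 * ((k : ℚ) - 1) * r1 ≤ 3 := by linarith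
            have h5 : (k : ℚ) ^ 2 * (2 * ((k : ℚ) - 1) * r1) ≤ (k : ℚ) ^ 2 * 3 :=
              mul_le_mul_of_nonneg_left h4 (by positivity)
            have h6 : ((k : ℚ) - 1) * (2 * k * 1 + 2 * k * ((2 * k - 2 + 2 - k) * r1)) ≤
                ((k : ℚ) - 1) * (3 * (2 * k - 2 + 1)) := by nlinarith
            exact le_of_mul_le_mul_left h6 (by linarith)
          · have h2 := ih1 h1
            have h3 : ((m : ℚ) + 2 - k) * (2 * k * r1) ≤ ((m : ℚ) + 2 - k) * 3 :=
              mul_le_mul_of_nonneg_left h2 (by linarith)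
            nlinarith
        · rcases hr2a (by omega) with h2 | ⟨h2, h3⟩
          · have h3 : (k : ℚ) * (2 * ((k : ℚ) - 1) * r2) ≤ k * 3 :=
              mul_le_mul_of_nonneg_left h2 (by linarith)
            nlinarith
          · have e : (k : ℚ) = 3 := by exact_mod_cast h2
            rw [e]
            linarith
      have h7 : ((m : ℚ) + 1) * (2 * (k : ℚ) * r) ≤ ((m : ℚ) + 1) * 3 := by
        rw [← hrec] at key
        linarith
      exact le_of_mul_le_mul_left h7 hM
    · intro h
      push_cast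
      have hq : (m : ℚ) + 2 ≤ 2 * k := by exact_mod_cast (by omega : m + 2 ≤ 2 * k)
      set e : ℚ := (m : ℚ) + 2 - k with he
      have he2 : 2 ≤ e := by rw [he]; linarith
      have hek : e ≤ k := by rw [he]; linarith
      have hme : (m : ℚ) = k + e - 2 := by rw [he]; ring
      have hkN : 7 ≤ k := by omega
      have hk7 : (7 : ℚ) ≤ k := by exact_mod_cast hkN
      have e1 : (m : ℚ) + 1 + 1 - k = e := by rw [he]; ring
      rw [e1]
      have key : 2 * e * (1 + max (e * r1) (((k : ℚ) - 1) * r2)) ≤ 3 * ((m : ℚ) + 1) := by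
        rw [mul_add, mul_max_of_nonneg _ _ (by linarith), ← max_add_add_left]
        refine max_le ?_ ?_
        · have h2 := ih2 (by omega)
          have h3 : 2 * (e - 1) * r1 ≤ 3 := by
            have : (m : ℚ) + 1 - k = e - 1 := by rw [he]; ring
            rwa [this] at h2
          have h5 : e ^ 2 * (2 * (e - 1) * r1) ≤ e ^ 2 * 3 :=
            mul_le_mul_of_nonneg_left h3 (by positivity)
          have h6 : 5 * e ^ 2 - 2 * e ≤ 3 * (e - 1) * ((m : ℚ) + 1) := by
            -- e is a natural number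
            obtain ⟨n, hn⟩ : ∃ n : ℕ, e = n := ⟨m + 2 - k, by
              rw [he, Nat.cast_sub (by omega)]; push_cast; ring⟩
            rw [hn] at he2 hek hme ⊢
            have hn2 : 2 ≤ n := by exact_mod_cast he2
            rcases Nat.lt_or_ge n 7 with h7 | h7
            · have h8 : 5 * (n : ℚ) ^ 2 - 2 * n ≤ 3 * ((n : ℚ) - 1) * 12 := by
                interval_cases n <;> norm_num
              have h9 : 3 * ((n : ℚ) - 1) * 12 ≤ 3 * ((n : ℚ) - 1) * ((m : ℚ) + 1) := by
                apply mul_le_mul_of_nonneg_left <;> linarith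
              linarith
            · have h7q : (7 : ℚ) ≤ n := by exact_mod_cast h7
              rw [hme]
              nlinarith
          have h7 : (e - 1) * (2 * e * 1 + 2 * e * (e * r1)) ≤ (e - 1) * (3 * ((m : ℚ) + 1)) := by
            nlinarith
          exact le_of_mul_le_mul_left h7 (by linarith)
        · rcases Nat.lt_or_ge (m + 1) (2 * (k - 1)) with h1 | h1
          · have h2 := (ih (k - 1) (by omega) (by omega)).2 (by omega)
            have h3 : 2 * e * r2 ≤ 3 := by
              have : (m : ℚ) + 1 - ((k - 1 : ℕ) : ℚ) = e := by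
                rw [Nat.cast_sub (by omega), he]; push_cast; ring
              rwa [this] at h2
            have h4 : ((k : ℚ) - 1) * (2 * e * r2) ≤ ((k : ℚ) - 1) * 3 :=
              mul_le_mul_of_nonneg_left h3 (by linarith)
            rw [hme]
            nlinarith
          · rcases Nat.eq_or_lt_of_le h1 with h1e | h1l
            · have h2 := (ih (k - 1) (by omega) (by omega)).2 (by omega)
              have h3 : 2 * e * r2 ≤ 3 := by
                have : (m : ℚ) + 1 - ((k - 1 : ℕ) : ℚ) = e := by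
                  rw [Nat.cast_sub (by omega), he]; push_cast; ring
                rwa [this] at h2
              have h4 : ((k : ℚ) - 1) * (2 * e * r2) ≤ ((k : ℚ) - 1) * 3 :=
                mul_le_mul_of_nonneg_left h3 (by linarith)
              rw [hme]
              nlinarith
            · have hke : e = k := by
                have : m + 2 = 2 * k := by omega
                have h3 : ((m + 2 : ℕ) : ℚ) = ((2 * k : ℕ) : ℚ) := by rw [this]
                push_cast at h3
                rw [he]; linarith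
              rcases hr2a (by omega) with h2 | ⟨h2, h3⟩
              · have h3 : (k : ℚ) * (2 * ((k : ℚ) - 1) * r2) ≤ k * 3 :=
                  mul_le_mul_of_nonneg_left h2 (by linarith)
                rw [hke]
                rw [hke] at hme
                nlinarith
              · omega
      have h7 : ((m : ℚ) + 1) * (2 * e * r) ≤ ((m : ℚ) + 1) * 3 := by
        rw [← hrec] at key
        linarith
      exact le_of_mul_le_mul_left h7 hM

/-- The inequality (L). -/
lemma L_ineq {m k : ℕ} (hk : 1 ≤ k) (hkm : k + 1 ≤ m) (h2 : k ≤ 2 * (m - k)) :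
    (k : ℚ) * (k + 1) * R m k < ((m : ℚ) - 2 * k) ^ 2 + m := by
  rcases Nat.lt_or_ge m 12 with hm | hm
  · exact L_base m hm k (by omega) hk h2
  have hmq : (12 : ℚ) ≤ m := by exact_mod_cast hm
  have hkq0 : (1 : ℚ) ≤ k := by exact_mod_cast hk
  by_cases hk1 : k = 1
  · subst hk1
    have := R_one_le (m := m)
    push_cast
    nlinarith
  by_cases hk2 : k = 2
  · subst hk2
    have := R_two_le m
    push_cast
    nlinarith
  have hk3 : 3 ≤ k := by omega
  have hkq : (3 : ℚ) ≤ k := by exact_mod_cast hk3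
  obtain ⟨b1, b2⟩ := R_bd m (by omega) k hk3 (by omega)
  set r := R m k with hr
  rcases Nat.lt_or_ge (m + 1) (2 * k) with h | h
  · -- d ≤ k - 2
    have h3 := b2 (by omega)
    obtain ⟨j, hj⟩ : ∃ j, m + j = 2 * k := ⟨2 * k - m, by omega⟩
    have hj2 : 2 ≤ j := by omega
    have hjk : 2 * j ≤ k := by omega
    have hmj : (m : ℚ) = 2 * k - j := by
      have h4 : ((m + j : ℕ) : ℚ) = ((2 * k : ℕ) : ℚ) := by rw [hj]
      push_cast at h4
      linarith
    have hj2q : (2 : ℚ) ≤ j := by exact_mod_cast hj2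
    have hjkq : 2 * (j : ℚ) ≤ k := by exact_mod_cast hjk
    have hd : (0 : ℚ) < (m : ℚ) + 1 - k := by rw [hmj]; linarith
    -- polynomial inequality
    have hpoly : 3 * ((k : ℚ) * (k + 1)) < 2 * ((m : ℚ) + 1 - k) * (((m : ℚ) - 2 * k) ^ 2 + m) := by
      rw [hmj]
      have e : 2 * (2 * (k : ℚ) - j + 1 - k) * ((2 * (k : ℚ) - j - 2 * k) ^ 2 + (2 * k - j)) -
          3 * ((k : ℚ) * (k + 1)) = k ^ 2 + k + 2 * k * j ^ 2 - 6 * k * j - 2 * j ^ 3 + 4 * j ^ 2 - 2 * j := by
        ring
      have e2 : (k : ℚ) * j ^ 2 ≥ 2 * j ^ 3 := by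
        have : (j : ℚ) ^ 2 * (2 * j) ≤ j ^ 2 * k := mul_le_mul_of_nonneg_left hjkq (by positivity)
        nlinarith
      have e3 : 0 < (k : ℚ) ^ 2 + k + k * j ^ 2 - 6 * k * j + 4 * j ^ 2 - 2 * j := by
        rcases Nat.lt_or_ge j 6 with h6 | h6
        · interval_cases j
          · -- j = 2
            have : (7 : ℚ) ≤ k := by exact_mod_cast (by omega : 7 ≤ k)
            norm_num
            nlinarith
          · norm_num
            nlinarith [sq_nonneg ((k : ℚ) - 4)]
          · norm_num
            nlinarith [sq_nonneg ((k : ℚ) - 4)]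
          · norm_num
            nlinarith [sq_nonneg ((k : ℚ) - 2)]
        · have h6q : (6 : ℚ) ≤ j := by exact_mod_cast h6
          have : 0 ≤ (k : ℚ) * ((j : ℚ) * (j - 6)) := by
            apply mul_nonneg (by linarith)
            apply mul_nonneg <;> linarith
          nlinarith
      nlinarith
    have h5 : 2 * ((m : ℚ) + 1 - k) * ((k : ℚ) * (k + 1) * r) ≤ 3 * ((k : ℚ) * (k + 1)) := by
      have : ((k : ℚ) * (k + 1)) * (2 * ((m : ℚ) + 1 - k) * r) ≤ ((k : ℚ) * (k + 1)) * 3 :=
        mul_le_mul_of_nonneg_left h3 (by positivity)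
      nlinarith
    have h6 : 2 * ((m : ℚ) + 1 - k) * ((k : ℚ) * (k + 1) * r) <
        2 * ((m : ℚ) + 1 - k) * (((m : ℚ) - 2 * k) ^ 2 + m) := lt_of_le_of_lt h5 hpoly
    exact lt_of_mul_lt_mul_left h6 (by linarith)
  · have h3 := b1 (by omega)
    have h4 : 2 * ((k : ℚ) * (k + 1) * r) ≤ 3 * (k + 1) := by
      have : ((k : ℚ) + 1) * (2 * k * r) ≤ (k + 1) * 3 := mul_le_mul_of_nonneg_left h3 (by linarith)
      nlinarith
    have h5 : 3 * ((k : ℚ) + 1) < 2 * m := by
      rcases Nat.lt_or_ge k 7 with h7 | h7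
      · have : (k : ℚ) ≤ 6 := by exact_mod_cast (by omega : k ≤ 6)
        linarith
      · have h8 : (7 : ℚ) ≤ k := by exact_mod_cast h7
        have h9 : 2 * (k : ℚ) ≤ m + 1 := by exact_mod_cast h
        linarith
    nlinarith [sq_nonneg ((m : ℚ) - 2 * k)]

end Pool.Agent.Helper60.FA
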