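import Pool.Agent.Helper60.FA.Basic

/-!
The cascade recursion for the minimum shadow function.
-/

namespace Pool.Agent.Helper60.FA

open Finset Finset.Colex
open scoped FinsetFamily

/-- add the new last element to a set -/
def addLast {m : ℕ} (T : Finset (Fin m)) : Finset (Fin (m + 1)) :=
  insert (Fin.last m) (T.map Fin.castSuccEmb)

lemma last_notMem_map {m : ℕ} (T : Finset (Fin m)) : Fin.last m ∉ T.map Fin.castSuccEmb := by
  intro h
  rw [mem_map] at h
  obtain ⟨a, -, ha⟩ := h
  exact (Fin.castSucc_lt_last a).ne ha

lemma last_mem_addLast {m : ℕ} (T : Finset (Fin m)) : Fin.last m ∈ addLast T :=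
  mem_insert_self _ _

lemma card_addLast {m : ℕ} (T : Finset (Fin m)) : (addLast T).card = T.card + 1 := by
  rw [addLast, card_insert_of_notMem (last_notMem_map T), card_map]

lemma erase_addLast {m : ℕ} (T : Finset (Fin m)) :
    (addLast T).erase (Fin.last m) = T.map Fin.castSuccEmb := by
  rw [addLast, erase_insert (last_notMem_map T)]

lemma addLast_injective {m : ℕ} : Function.Injective (addLast (m := m)) := by
  intro S T h
  have := congrArg (fun X => X.erase (Fin.last m)) h
  simp only [erase_addLast] at this
  exact map_injective _ this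

lemma eq_map_of_last_notMem {m : ℕ} {t : Finset (Fin (m + 1))} (h : Fin.last m ∉ t) :
    ∃ T : Finset (Fin m), T.map Fin.castSuccEmb = t := by
  refine ⟨univ.filter (fun a => Fin.castSuccEmb a ∈ t), ?_⟩
  ext b
  rw [mem_map]
  constructor
  · rintro ⟨a, ha, rfl⟩
    rw [mem_filter] at ha
    exact ha.2
  · intro hb
    induction b using Fin.lastCases with
    | last => exact absurd hb h
    | cast b => exact ⟨b, by rw [mem_filter]; exact ⟨mem_univ _, hb⟩, rfl⟩

lemma eq_addLast_of_last_mem {m : ℕ} {t : Finset (Fin (m + 1))} (h : Fin.last m ∈ t) :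
    ∃ T : Finset (Fin m), addLast T = t := by
  obtain ⟨T, hT⟩ := eq_map_of_last_notMem (notMem_erase (Fin.last m) t)
  exact ⟨T, by rw [addLast, hT, insert_erase h]⟩

/-- all `(k+1)`-subsets of the first `m` points together with the sets of `C` with the last point
added. -/
def step (m k : ℕ) (C : Finset (Finset (Fin m))) : Finset (Finset (Fin (m + 1))) :=
  mapF Fin.castSuccEmb (powersetCard (k + 1) univ) ∪ C.image addLast

lemma mem_step {m k : ℕ} {C : Finset (Finset (Fin m))} {t : Finset (Fin (m + 1))} :
    t ∈ step m k C ↔ (∃ T : Finset (Fin m), T.card = k + 1 ∧ T.map Fin.castSuccEmb = t) ∨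
      ∃ T ∈ C, addLast T = t := by
  rw [step, mem_union, mem_mapF, mem_image]
  simp [mem_powersetCard]

lemma card_step {m k : ℕ} (C : Finset (Finset (Fin m))) :
    (step m k C).card = m.choose (k + 1) + C.card := by
  rw [step, card_union_of_disjoint, card_mapF, card_powersetCard, card_univ, Fintype.card_fin,
    card_image_of_injective _ addLast_injective]
  rw [disjoint_left]
  intro t ht ht'
  rw [mem_mapF] at ht
  rw [mem_image] at ht'
  obtain ⟨T, -, rfl⟩ := ht
  obtain ⟨S, -, h⟩ := ht'
  exact last_notMem_map T (h ▸ last_mem_addLast S)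

lemma sized_step {m k : ℕ} {C : Finset (Finset (Fin m))}
    (hC : (C : Set (Finset (Fin m))).Sized k) :
    (step m k C : Set (Finset (Fin (m + 1)))).Sized (k + 1) := by
  intro t ht
  rw [mem_coe, mem_step] at ht
  rcases ht with ⟨T, hT, rfl⟩ | ⟨T, hT, rfl⟩
  · rw [card_map, hT]
  · rw [card_addLast, hC hT]

lemma isInitSeg_step {m k : ℕ} {C : Finset (Finset (Fin m))} (hC : IsInitSeg C k) :
    IsInitSeg (step m k C) (k + 1) := by
  refine ⟨sized_step hC.1, ?_⟩
  intro s t hs ⟨hts, htk⟩
  rw [mem_step] at hs ⊢
  by_cases hl : Fin.last m ∈ t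
  · right
    obtain ⟨T, rfl⟩ := eq_addLast_of_last_mem hl
    rcases hs with ⟨S, hS, rfl⟩ | ⟨S, hS, rfl⟩
    · exfalso
      have := forall_lt_mono (a := Fin.last m) hts.le (by
        intro b hb
        rw [mem_map] at hb
        obtain ⟨c, -, rfl⟩ := hb
        exact Fin.castSucc_lt_last c)
      exact lt_irrefl _ (this _ (last_mem_addLast T))
    · refine ⟨T, hC.2 hS ⟨?_, ?_⟩, rfl⟩
      · have h1 := (toColex_sdiff_lt_toColex_sdiff (u := {Fin.last m})
          (singleton_subset_iff.2 (last_mem_addLast T))
          (singleton_subset_iff.2 (last_mem_addLast S))).2 hts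
        rw [sdiff_singleton_eq_erase, sdiff_singleton_eq_erase, erase_addLast, erase_addLast,
          map_eq_image, map_eq_image] at h1
        exact (toColex_image_lt_toColex_image (Fin.strictMono_castSucc)).1 h1
      · rw [card_addLast] at htk
        omega
  · left
    obtain ⟨T, rfl⟩ := eq_map_of_last_notMem hl
    exact ⟨T, by rw [← htk, card_map], rfl⟩

lemma card_shadow_step {m k : ℕ} (hm : k + 1 ≤ m) {C : Finset (Finset (Fin m))}
    (hC : (C : Set (Finset (Fin m))).Sized k) :
    (∂ (step m k C)).card = m.choose k + (∂ C).card := by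
  have key : ∂ (step m k C) = mapF Fin.castSuccEmb (powersetCard k univ) ∪ (∂ C).image addLast := by
    ext t
    rw [mem_union, mem_mapF, mem_image, mem_shadow_iff]
    constructor
    · rintro ⟨s, hs, a, ha, rfl⟩
      rw [mem_step] at hs
      rcases hs with ⟨T, hT, rfl⟩ | ⟨T, hT, rfl⟩
      · left
        rw [mem_map] at ha
        obtain ⟨b, hb, rfl⟩ := ha
        refine ⟨T.erase b, ?_, by rw [map_erase]⟩
        rw [mem_powersetCard]
        exact ⟨subset_univ _, by rw [card_erase_of_mem hb, hT]; rfl⟩
      · by_cases hal : a = Fin.last m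
        · left
          subst hal
          refine ⟨T, ?_, by rw [erase_addLast]⟩
          rw [mem_powersetCard]
          exact ⟨subset_univ _, hC hT⟩
        · right
          rw [addLast, mem_insert] at ha
          rcases ha with ha | ha
          · exact absurd ha hal
          · rw [mem_map] at ha
            obtain ⟨b, hb, rfl⟩ := ha
            refine ⟨T.erase b, erase_mem_shadow hT hb, ?_⟩
            rw [addLast, addLast, erase_insert_of_ne (fun h => hal h.symm), map_erase]
    · rintro (⟨T, hT, rfl⟩ | ⟨T, hT, rfl⟩)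
      · rw [mem_powersetCard] at hT
        have : ∃ b, b ∉ T := by
          by_contra hcon
          push Not at hcon
          have : T = univ := eq_univ_of_forall hcon
          rw [this, card_univ, Fintype.card_fin] at hT
          omega
        obtain ⟨b, hb⟩ := this
        refine ⟨(insert b T).map Fin.castSuccEmb, ?_, Fin.castSuccEmb b, ?_, ?_⟩
        · rw [mem_step]
          left
          exact ⟨insert b T, by rw [card_insert_of_notMem hb, hT.2], rfl⟩
        · exact mem_map_of_mem _ (mem_insert_self _ _)
        · rw [← map_erase, erase_insert hb]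
      · rw [mem_shadow_iff] at hT
        obtain ⟨S, hS, a, ha, rfl⟩ := hT
        refine ⟨addLast S, ?_, Fin.castSuccEmb a, ?_, ?_⟩
        · rw [mem_step]
          right
          exact ⟨S, hS, rfl⟩
        · rw [addLast, mem_insert]
          right
          exact mem_map_of_mem _ ha
        · rw [addLast, addLast, erase_insert_of_ne, map_erase]
          exact (Fin.castSucc_lt_last a).ne'
  rw [key, card_union_of_disjoint, card_mapF, card_powersetCard, card_univ, Fintype.card_fin,
    card_image_of_injective _ addLast_injective]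
  rw [disjoint_left]
  intro t ht ht'
  rw [mem_mapF] at ht
  rw [mem_image] at ht'
  obtain ⟨T, -, rfl⟩ := ht
  obtain ⟨S, -, h⟩ := ht'
  exact last_notMem_map T (h ▸ last_mem_addLast S)

/-- The cascade recursion. -/
theorem D_rec {m k x : ℕ} (hk : 1 ≤ k) (hm : k + 1 ≤ m) (hx : x ≤ m.choose k) :
    D (k + 1) (m.choose (k + 1) + x) = m.choose k + D k x := by
  obtain ⟨C, hC, hCx⟩ := exists_initSeg x hx
  have h1 := card_shadow_initSeg (by omega) (isInitSeg_step hC)
    (m := m.choose (k + 1) + x) (by rw [card_step, hCx])
  rw [← h1, card_shadow_step hm hC.1, card_shadow_initSeg hk hC hCx]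

/-- `D` of a full binomial. -/
theorem D_choose {m k : ℕ} (hk : 1 ≤ k) (hm : k ≤ m) :
    D k (m.choose k) = m.choose (k - 1) := by
  have h : IsInitSeg (powersetCard k (univ : Finset (Fin m))) k := by
    refine ⟨Set.sized_powersetCard _ _, ?_⟩
    intro s t _ ht
    rw [mem_powersetCard]
    exact ⟨subset_univ _, ht.2⟩
  rw [← card_shadow_initSeg hk h (by rw [card_powersetCard, card_univ, Fintype.card_fin])]
  have : ∂ (powersetCard k (univ : Finset (Fin m))) = powersetCard (k - 1) univ := by
    ext t
    rw [mem_shadow_iff_insert_mem, mem_powersetCard]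
    constructor
    · rintro ⟨a, ha, h⟩
      rw [mem_powersetCard, card_insert_of_notMem ha] at h
      exact ⟨subset_univ _, by omega⟩
    · rintro ⟨-, h⟩
      have : ∃ b, b ∉ t := by
        by_contra hcon
        push Not at hcon
        have : t = univ := eq_univ_of_forall hcon
        rw [this, card_univ, Fintype.card_fin] at h
        omega
      obtain ⟨b, hb⟩ := this
      exact ⟨b, hb, by
        rw [mem_powersetCard, card_insert_of_notMem hb]
        exact ⟨subset_univ _, by omega⟩⟩
  rw [this, card_powersetCard, card_univ, Fintype.card_fin]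

/-- The local LYM inequality for `D`. -/
theorem D_lym {m k x : ℕ} (hk : 1 ≤ k) (hx : x ≤ m.choose k) :
    x * k ≤ D k x * (m - k + 1) := by
  obtain ⟨C, hC, hCx⟩ := exists_initSeg x hx
  have := local_lubell_yamamoto_meshalkin_inequality_mul hC.1
  rwa [hCx, card_shadow_initSeg hk hC hCx, Fintype.card_fin] at this

theorem D_one {x : ℕ} (hx : 1 ≤ x) : D 1 x = 1 := by
  obtain ⟨C, hC, hCx⟩ := exists_initSeg (n := x) (k := 1) x (by simp)
  rw [← card_shadow_initSeg le_rfl hC hCx]
  have : ∂ C = {∅} := by
    ext t
    rw [mem_shadow_iff, mem_singleton]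
    constructor
    · rintro ⟨s, hs, a, ha, rfl⟩
      have := hC.1 hs
      rw [card_eq_one] at this
      obtain ⟨b, rfl⟩ := this
      rw [mem_singleton] at ha
      rw [ha]
      exact erase_singleton b
    · rintro rfl
      have : C.Nonempty := by
        rw [← card_pos]; omega
      obtain ⟨s, hs⟩ := this
      have h1 := hC.1 hs
      rw [card_eq_one] at h1
      obtain ⟨b, rfl⟩ := h1
      exact ⟨{b}, hs, b, mem_singleton_self b, erase_singleton b⟩
  rw [this, card_singleton]

end Pool.Agent.Helper60.FA
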